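import Mathlib

/-! The Prekopa-Leindler inequality (copy of the team file H96PL). -/

namespace Pool.Agent.Lib.MP_bc94b4_co.Ac

open MeasureTheory Set
open scoped ENNReal NNReal

namespace PL

lemma vol_half (S : Set ℝ) (c : ℝ) :
    2 * volume ((fun z : ℝ => 2 * z + c) ⁻¹' S) = volume S := by
  have e : (fun z : ℝ => 2 * z + c) ⁻¹' S = (fun z : ℝ => 2 * z) ⁻¹' ((fun z => z + c) ⁻¹' S) := rfl
  rw [e, Real.volume_preimage_mul_left two_ne_zero, measure_preimage_add_right, ← mul_assoc,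
    abs_of_pos (by norm_num), ENNReal.ofReal_inv_of_pos two_pos, ENNReal.ofReal_ofNat,
    ENNReal.mul_inv_cancel two_ne_zero ENNReal.ofNat_ne_top, one_mul]

lemma bm_cut {A B C : Set ℝ} (hB : MeasurableSet B)
    (h : ∀ x ∈ A, ∀ y ∈ B, (x + y) / 2 ∈ C) {x₀ y₀ : ℝ} (hx : x₀ ∈ A) (hy : y₀ ∈ B) :
    volume (A ∩ Iic x₀) + volume (B ∩ Ici y₀) ≤ 2 * volume C := by
  rw [← vol_half (A ∩ Iic x₀) (-y₀), ← vol_half (B ∩ Ici y₀) (-x₀), ← mul_add,
    ← measure_union_add_inter _ ((hB.inter measurableSet_Ici).preimage (by fun_prop))]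
  gcongr
  have e : volume ((fun z : ℝ => 2 * z + -y₀) ⁻¹' (A ∩ Iic x₀) ∩
      (fun z : ℝ => 2 * z + -x₀) ⁻¹' (B ∩ Ici y₀)) = 0 := by
    refine measure_mono_null (t := {(x₀ + y₀) / 2}) (fun z hz => ?_) (measure_singleton _)
    have h1 : 2 * z + -y₀ ≤ x₀ := hz.1.2
    have h2 : y₀ ≤ 2 * z + -x₀ := hz.2.2
    rw [mem_singleton_iff]
    linarith
  rw [e, add_zero]
  refine measure_mono ?_
  rintro z (hz | hz)
  · have := h _ hz.1 _ hy
    rwa [show (2 * z + -y₀ + y₀) / 2 = z by ring] at this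
  · have := h _ hx _ hz.1
    rwa [show (x₀ + (2 * z + -x₀)) / 2 = z by ring] at this

/-- the Brunn-Minkowski inequality on the line -/
lemma bm {A B C : Set ℝ} (hA : MeasurableSet A) (hB : MeasurableSet B) (hA' : A.Nonempty)
    (hB' : B.Nonempty) (h : ∀ x ∈ A, ∀ y ∈ B, (x + y) / 2 ∈ C) :
    volume A + volume B ≤ 2 * volume C := by
  have h1 : volume A ≤ ⨆ x, ⨆ _ : x ∈ A, volume (A ∩ Iic x) := le_of_forall_lt fun r hr => by
    obtain ⟨K, k1, k2, k3⟩ := hA.exists_lt_isCompact hr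
    obtain ⟨x, hx, k4⟩ := k2.exists_isGreatest
      (nonempty_of_measure_ne_zero (ne_of_gt (lt_of_le_of_lt zero_le k3)))
    exact k3.trans_le (le_iSup₂_of_le x (k1 hx) (measure_mono fun z hz => ⟨k1 hz, k4 hz⟩))
  have h2 : volume B ≤ ⨆ y, ⨆ _ : y ∈ B, volume (B ∩ Ici y) := le_of_forall_lt fun r hr => by
    obtain ⟨K, k1, k2, k3⟩ := hB.exists_lt_isCompact hr
    obtain ⟨x, hx, k4⟩ := k2.exists_isLeast
      (nonempty_of_measure_ne_zero (ne_of_gt (lt_of_le_of_lt zero_le k3)))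
    exact k3.trans_le (le_iSup₂_of_le x (k1 hx) (measure_mono fun z hz => ⟨k1 hz, k4 hz⟩))
  exact (add_le_add h1 h2).trans
    (ENNReal.biSup_add_biSup_le' hA' hB' fun x hx y hy => bm_cut hB h hx hy)

lemma vol_lt (c : ℝ≥0∞) :
    (volume.restrict (Ioi (0 : ℝ))) {t | ENNReal.ofReal t < c} = c := by
  rw [Measure.restrict_apply' measurableSet_Ioi]
  induction c with
  | top => simp
  | coe r =>
    have : {t | ENNReal.ofReal t < (r : ℝ≥0∞)} ∩ Ioi (0 : ℝ) = Ioo 0 (r : ℝ) := by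
      ext t
      simp only [mem_inter_iff, mem_ofPred_eq, mem_Ioi, mem_Ioo]
      exact ⟨fun k => ⟨k.2, (ENNReal.ofReal_lt_coe_iff k.2.le).1 k.1⟩,
        fun k => ⟨(ENNReal.ofReal_lt_coe_iff k.1.le).2 k.2, k.1⟩⟩
    rw [this, Real.volume_Ioo, sub_zero, ENNReal.ofReal_coe_nnreal]

/-- layer cake formula -/
lemma layer {f : ℝ → ℝ≥0∞} (hf : Measurable f) :
    ∫⁻ x, f x = ∫⁻ t in Ioi (0 : ℝ), volume {x | ENNReal.ofReal t < f x} := by
  have hS : MeasurableSet {p : ℝ × ℝ | ENNReal.ofReal p.2 < f p.1} :=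
    measurableSet_lt (by fun_prop) (by fun_prop)
  have e1 := Measure.prod_apply (μ := volume) (ν := volume.restrict (Ioi (0 : ℝ))) hS
  have e2 := Measure.prod_apply_symm (μ := volume) (ν := volume.restrict (Ioi (0 : ℝ))) hS
  simp only [preimage_ofPred_eq, vol_lt] at e1 e2
  rw [← e1, e2]

lemma meas_level {f : ℝ → ℝ≥0∞} :
    Measurable fun t : ℝ => volume {x | ENNReal.ofReal t < f x} :=
  Antitone.measurable fun _ _ hst =>
    measure_mono fun _ hx => lt_of_le_of_lt (ENNReal.ofReal_le_ofReal hst) hx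

lemma pl_eq {f g h : ℝ → ℝ≥0∞} (hf : Measurable f) (hg : Measurable g) (hh : Measurable h)
    (H : ∀ x y, f x * g y ≤ h ((x + y) / 2) ^ 2) (hs : ⨆ x, f x = ⨆ x, g x) :
    (∫⁻ x, f x) + ∫⁻ x, g x ≤ 2 * ∫⁻ x, h x := by
  rw [layer hf, layer hg, layer hh, ← lintegral_add_left meas_level,
    ← lintegral_const_mul _ meas_level]
  refine lintegral_mono fun t => ?_
  by_cases c : ENNReal.ofReal t < ⨆ x, f x
  · refine bm (measurableSet_lt measurable_const hf) (measurableSet_lt measurable_const hg)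
      (lt_iSup_iff.1 c) (lt_iSup_iff.1 (c.trans_eq hs)) fun x hx y hy => ?_
    by_contra k
    have k' : h ((x + y) / 2) ≤ ENNReal.ofReal t := not_lt.1 k
    have := (ENNReal.mul_lt_mul hx hy).trans_le (H x y)
    rw [← sq] at this
    exact absurd (pow_le_pow_left' k' 2) (not_le.2 this)
  · have c' : ¬ENNReal.ofReal t < ⨆ x, g x := hs ▸ c
    have e1 : {x | ENNReal.ofReal t < f x} = ∅ :=
      eq_empty_of_forall_notMem fun x hx => c (lt_iSup_iff.2 ⟨x, hx⟩)
    have e2 : {x | ENNReal.ofReal t < g x} = ∅ :=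
      eq_empty_of_forall_notMem fun x hx => c' (lt_iSup_iff.2 ⟨x, hx⟩)
    simp only [e1, e2, measure_empty, add_zero, zero_le]

lemma amgm {x y z : ℝ≥0∞} (h : x + y ≤ 2 * z) : x * y ≤ z ^ 2 := by
  induction z with
  | top => simp
  | coe z =>
    have hz : 2 * (z : ℝ≥0∞) ≠ ⊤ := ENNReal.mul_ne_top ENNReal.ofNat_ne_top ENNReal.coe_ne_top
    lift x to ℝ≥0 using ne_top_of_le_ne_top hz (le_self_add.trans h)
    lift y to ℝ≥0 using ne_top_of_le_ne_top hz (le_add_self.trans h)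
    have h' : (x : ℝ) + y ≤ 2 * z := by exact_mod_cast h
    have : (x : ℝ) * y ≤ z ^ 2 := by
      nlinarith [sq_nonneg ((x : ℝ) - y), x.2, y.2, z.2]
    exact_mod_cast this

lemma pl_fin {f g h : ℝ → ℝ≥0∞} (hf : Measurable f) (hg : Measurable g) (hh : Measurable h)
    (H : ∀ x y, f x * g y ≤ h ((x + y) / 2) ^ 2) (ha : ⨆ x, f x ≠ ⊤) (hb : ⨆ x, g x ≠ ⊤) :
    (∫⁻ x, f x) * ∫⁻ x, g x ≤ (∫⁻ x, h x) ^ 2 := by
  obtain ⟨a, ea⟩ : ∃ a : ℝ≥0, (a : ℝ≥0∞) = ⨆ x, f x := ⟨_, ENNReal.coe_toNNReal ha⟩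
  obtain ⟨b, eb⟩ : ∃ a : ℝ≥0, (a : ℝ≥0∞) = ⨆ x, g x := ⟨_, ENNReal.coe_toNNReal hb⟩
  rcases eq_or_ne a 0 with rfl | a0
  · simp [ENNReal.iSup_eq_zero.1 ea.symm]
  rcases eq_or_ne b 0 with rfl | b0
  · simp [ENNReal.iSup_eq_zero.1 eb.symm]
  obtain ⟨l, l0, hl⟩ : ∃ l : ℝ≥0, l ≠ 0 ∧ l * a = l⁻¹ * b := by
    have p : NNReal.sqrt (b / a) ≠ 0 := by simp [a0, b0]
    refine ⟨_, p, ?_⟩
    rw [eq_inv_mul_iff_mul_eq₀ p, ← mul_assoc, NNReal.mul_self_sqrt, div_mul_cancel₀ _ a0]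
  have e : (l : ℝ≥0∞) * (l⁻¹ : ℝ≥0) = 1 := by rw [← ENNReal.coe_mul, mul_inv_cancel₀ l0]; rfl
  have := amgm (pl_eq (f := fun x => l * f x) (g := fun x => (l⁻¹ : ℝ≥0) * g x) (by fun_prop)
    (by fun_prop) hh (fun x y => by rw [mul_mul_mul_comm, e, one_mul]; exact H x y)
    (by rw [← ENNReal.mul_iSup, ← ENNReal.mul_iSup, ← ea, ← eb, ← ENNReal.coe_mul, hl,
      ENNReal.coe_mul]))
  rwa [lintegral_const_mul _ hf, lintegral_const_mul _ hg, mul_mul_mul_comm, e, one_mul] at this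

lemma trunc {f : ℝ → ℝ≥0∞} (hf : Measurable f) :
    ∫⁻ x, f x = ⨆ n : ℕ, ∫⁻ x, min (f x) n := by
  rw [← lintegral_iSup (fun n => hf.min measurable_const)
    fun m n hmn x => min_le_min_left _ (Nat.cast_le.2 hmn)]
  refine lintegral_congr fun x => ?_
  rw [← inf_iSup_eq (f x) fun n : ℕ => (n : ℝ≥0∞), ENNReal.iSup_natCast, inf_top_eq]

/-- the inequality for a measure and a midpoint operation -/
def P {E : Type} [MeasurableSpace E] (μ : Measure E) (m : E → E → E) : Prop :=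
  ∀ f g h : E → ℝ≥0∞, Measurable f → Measurable g → Measurable h →
    (∀ x y, f x * g y ≤ h (m x y) ^ 2) → (∫⁻ x, f x ∂μ) * (∫⁻ x, g x ∂μ) ≤ (∫⁻ x, h x ∂μ) ^ 2

lemma P_real : P (volume : Measure ℝ) fun x y => (x + y) / 2 := fun f g h hf hg hh H => by
  rw [trunc hf, trunc hg, ENNReal.iSup_mul]
  refine iSup_le fun m => ?_
  rw [ENNReal.mul_iSup]
  refine iSup_le fun n => pl_fin (hf.min measurable_const) (hg.min measurable_const) hh
    (fun x y => (mul_le_mul' (min_le_left _ _) (min_le_left _ _)).trans (H x y))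
    (ne_top_of_le_ne_top (ENNReal.natCast_ne_top m) (iSup_le fun _ => min_le_right _ _))
    (ne_top_of_le_ne_top (ENNReal.natCast_ne_top n) (iSup_le fun _ => min_le_right _ _))

variable {E F : Type} [MeasurableSpace E] [MeasurableSpace F] {μ : Measure E} {ν : Measure F}
  {m : E → E → E} {k : F → F → F}

lemma P.prod [SFinite ν] (h1 : P μ m) (h2 : P ν k) :
    P (μ.prod ν) fun p q => (m p.1 q.1, k p.2 q.2) := fun f g h hf hg hh H => by
  rw [lintegral_prod _ hf.aemeasurable, lintegral_prod _ hg.aemeasurable,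
    lintegral_prod _ hh.aemeasurable]
  exact h1 _ _ _ hf.lintegral_prod_right' hg.lintegral_prod_right' hh.lintegral_prod_right'
    fun s t => h2 _ _ _ (hf.comp measurable_prodMk_left) (hg.comp measurable_prodMk_left)
      (hh.comp measurable_prodMk_left) fun x y => H (s, x) (t, y)

lemma P.equiv (h2 : P ν k) (e : F ≃ᵐ E) (he : MeasurePreserving e ν μ)
    (hm : ∀ x y, e (k x y) = m (e x) (e y)) : P μ m := fun f g h hf hg hh H => by
  rw [← he.lintegral_comp hf, ← he.lintegral_comp hg, ← he.lintegral_comp hh]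
  exact h2 _ _ _ (hf.comp e.measurable) (hg.comp e.measurable) (hh.comp e.measurable)
    fun x y => by rw [hm]; exact H _ _

lemma P_fin (n : ℕ) : P (volume : Measure (Fin n → ℝ)) fun x y i => (x i + y i) / 2 := by
  induction n with
  | zero =>
    intro f g h _ _ _ H
    have e : (volume : Measure (Fin 0 → ℝ)) = Measure.dirac default := Measure.pi_of_empty _ _
    rw [e, lintegral_dirac, lintegral_dirac, lintegral_dirac]
    exact (H _ _).trans_eq (by congr 2; exact Subsingleton.elim _ _)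
  | succ n ih =>
    refine (P_real.prod ih).equiv (MeasurableEquiv.piFinSuccAbove (fun _ => ℝ) 0).symm
      (volume_preserving_piFinSuccAbove (fun _ => ℝ) 0).symm fun x y => ?_
    funext i
    refine Fin.cases ?_ (fun j => ?_) i <;> simp [MeasurableEquiv.piFinSuccAbove_symm_apply]

end PL

end Pool.Agent.Lib.MP_bc94b4_co.Ac
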