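import Pool.Agent.Lib.MP_bc94b4_co.Ac.Defs
import Pool.Agent.Lib.MP_bc94b4_co.Ac.PL

/-!
The midpoint Brunn-Minkowski inequality and basic facts on the uniform law.
-/

namespace Pool.Agent.Lib.MP_bc94b4_co.Ac

open MeasureTheory ProbabilityTheory Set
open scoped RealInnerProductSpace ENNReal

variable {d : ℕ} {R : Set (E d)}

theorem bm {A B C : Set (E d)} (hA : MeasurableSet A) (hB : MeasurableSet B)
    (hC : MeasurableSet C) (h : ∀ x ∈ A, ∀ y ∈ B, (2 : ℝ)⁻¹ • (x + y) ∈ C) :
    volume A * volume B ≤ volume C ^ 2 := by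
  have hP : PL.P (volume : Measure (E d))
      fun x y => (2 : ℝ)⁻¹ • (x + y) := by
    refine (PL.P_fin d).equiv (MeasurableEquiv.toLp 2 (Fin d → ℝ))
      (EuclideanSpace.volume_preserving_symm_measurableEquiv_toLp (Fin d)).symm fun x y => ?_
    ext i
    simp [div_eq_inv_mul, mul_add]
  have := hP (A.indicator 1) (B.indicator 1) (C.indicator 1) (measurable_one.indicator hA)
    (measurable_one.indicator hB) (measurable_one.indicator hC) fun x y => by
      by_cases hx : x ∈ A
      · by_cases hy : y ∈ B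
        · rw [indicator_of_mem hx, indicator_of_mem hy, indicator_of_mem (h x hx y hy)]
          simp
        · simp [hy]
      · simp [hx]
  simpa [lintegral_indicator_one, hA, hB, hC] using this

lemma Body.meas (h : Body R) : MeasurableSet R := h.opn.measurableSet

lemma Body.vol_pos (h : Body R) : volume R ≠ 0 := (h.opn.measure_pos _ h.ne).ne'

lemma Body.vol_fin (h : Body R) : volume R ≠ ∞ := h.bdd.measure_lt_top.ne

lemma Body.prob (h : Body R) : IsProbabilityMeasure (mu R) :=
  ⟨by simp [mu, ENNReal.inv_mul_cancel h.vol_pos h.vol_fin]⟩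

lemma mu_apply {A : Set (E d)} (hA : MeasurableSet A) :
    mu R A = (volume R)⁻¹ * volume (A ∩ R) := by
  simp [mu, Measure.restrict_apply hA]

lemma mu_real {A : Set (E d)} (hA : MeasurableSet A) :
    (mu R).real A = volume.real (A ∩ R) / volume.real R := by
  simp [Measure.real, mu_apply hA, div_eq_inv_mul]

lemma Body.ae_mem (h : Body R) : ∀ᵐ y ∂mu R, y ∈ R :=
  Measure.ae_smul_measure (ae_restrict_mem h.meas) _

/-- Brunn-Minkowski for the uniform law -/
theorem Body.bm (hR : Body R) {A B C : Set (E d)} (hA : MeasurableSet A) (hB : MeasurableSet B)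
    (hC : MeasurableSet C) (h : ∀ x ∈ A, x ∈ R → ∀ y ∈ B, y ∈ R → (2 : ℝ)⁻¹ • (x + y) ∈ C) :
    (mu R).real A * (mu R).real B ≤ (mu R).real C ^ 2 := by
  have h1 := Ac.bm (hA.inter hR.meas) (hB.inter hR.meas) (hC.inter hR.meas)
    (A := A ∩ R) (B := B ∩ R) (C := C ∩ R) fun x hx y hy => ⟨h x hx.1 hx.2 y hy.1 hy.2, by
      have := hR.cvx hx.2 hy.2 (a := 2⁻¹) (b := 2⁻¹) (by norm_num) (by norm_num) (by norm_num)
      rwa [← smul_add] at this⟩
  have hf : volume (C ∩ R) ≠ ∞ := ne_top_of_le_ne_top hR.vol_fin (measure_mono inter_subset_right)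
  have h2 := ENNReal.toReal_mono (ENNReal.pow_ne_top hf) h1
  rw [ENNReal.toReal_mul, ENNReal.toReal_pow] at h2
  rw [mu_real hA, mu_real hB, mu_real hC, div_mul_div_comm, div_pow, ← sq]
  exact div_le_div_of_nonneg_right h2 (sq_nonneg _)

end Pool.Agent.Lib.MP_bc94b4_co.Ac
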