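import Pool.Agent.Lib.MP_bc94b4_co.Ac.Mom

/-!
Deep exits and exits in two different directions are rare.
-/

namespace Pool.Agent.Lib.MP_bc94b4_co.Ac

open MeasureTheory ProbabilityTheory Set
open scoped RealInnerProductSpace ENNReal

variable {d : ℕ} {R : Set (E d)} {S : Finset (E d)} {L : E d →L[ℝ] E d} {ν : Measure (E d)}

namespace Bad

variable {α β : Type} [MeasurableSpace α] [MeasurableSpace β]

lemma fub_left (μ : Measure α) (κ : Measure β) [IsProbabilityMeasure μ] [IsProbabilityMeasure κ]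
    {s : Set (α × β)} (hs : MeasurableSet s) :
    (μ.prod κ).real s = ∫ x, κ.real (Prod.mk x ⁻¹' s) ∂μ := by
  simp only [Measure.real]
  rw [Measure.prod_apply hs, integral_toReal (measurable_measure_prodMk_left hs).aemeasurable
    (Filter.Eventually.of_forall fun x => measure_lt_top _ _)]

lemma fub_right (μ : Measure α) (κ : Measure β) [IsProbabilityMeasure μ] [IsProbabilityMeasure κ]
    {s : Set (α × β)} (hs : MeasurableSet s) :
    (μ.prod κ).real s = ∫ y, μ.real ((fun x => (x, y)) ⁻¹' s) ∂κ := by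
  simp only [Measure.real]
  rw [Measure.prod_apply_symm hs, integral_toReal
    (measurable_measure_prodMk_right hs).aemeasurable
    (Filter.Eventually.of_forall fun x => measure_lt_top _ _)]

lemma lower (μ : Measure α) (κ : Measure β) [IsProbabilityMeasure μ] [IsProbabilityMeasure κ]
    {s : Set (α × β)} (hs : MeasurableSet s) {T : Set α} (hT : MeasurableSet T) {c : ℝ}
    (h : ∀ x ∈ T, c ≤ κ.real (Prod.mk x ⁻¹' s)) : c * μ.real T ≤ (μ.prod κ).real s := by
  rw [fub_left μ κ hs]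
  have hi : Integrable (fun x => κ.real (Prod.mk x ⁻¹' s)) μ :=
    Integrable.of_mem_Icc 0 1 (measurable_measure_prodMk_left hs).ennreal_toReal.aemeasurable
      (Filter.Eventually.of_forall fun x => ⟨measureReal_nonneg, measureReal_le_one⟩)
  have e : c * μ.real T = ∫ x, T.indicator (fun _ => c) x ∂μ := by
    rw [integral_indicator_const _ hT, smul_eq_mul, mul_comm]
  rw [e]
  refine integral_mono ((integrable_const c).indicator hT) hi fun x => ?_
  by_cases hx : x ∈ T
  · simpa [hx] using h x hx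
  · simp [hx]

lemma int_rho (hR : Body R) (μ : Measure α) [IsProbabilityMeasure μ] {f : α → E d}
    (hf : Measurable f) : Integrable (fun x => rho R (f x)) μ :=
  Integrable.of_mem_Icc 0 1 (hR.meas_rho.comp hf).aemeasurable
    (Filter.Eventually.of_forall fun _ => ⟨rho_nonneg _, hR.rho_le_one _⟩)

end Bad

theorem deep_le (hR : Body R) (hν : Gau L ν) {l s : ℝ} (hl : 0 ≤ l) (hs : 0 ≤ s)
    {T : Set (E d × E d)} (hT : MeasurableSet T)
    (h : ∀ p ∈ T, ∃ v c, ‖L v‖ = 1 ∧ (∀ x ∈ R, ⟪v, x⟫ < c) ∧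
      c - ⟪v, p.1⟫ ≤ 2 * l * ⟪v, p.2⟫ ∧ 4 * s < ⟪v, p.2⟫) :
    3 / 4 * ((mu R).prod ν).real T ≤
      2 * ex R ν (4 * l * √(1 + s ^ 2)) - ex R ν (8 * l * s) := by
  have := hR.prob
  have := hν.prob
  set a : ℝ := 4 * l with ha
  set b : ℝ := 4 * l * s with hb
  let U : Set (E d × E d × E d) :=
    {q | q.1 + (a • q.2.1 + b • q.2.2) ∉ R ∧ q.1 + (a • q.2.1 - b • q.2.2) ∉ R}
  have hU : MeasurableSet U := by
    refine MeasurableSet.inter (hR.meas.compl.preimage (f := fun q : E d × E d × E d =>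
      q.1 + (a • q.2.1 + b • q.2.2)) ?_) (hR.meas.compl.preimage (f := fun q : E d × E d × E d =>
      q.1 + (a • q.2.1 - b • q.2.2)) ?_) <;> fun_prop
  have hU' : MeasurableSet (MeasurableEquiv.prodAssoc ⁻¹' U : Set ((E d × E d) × E d)) :=
    MeasurableEquiv.prodAssoc.measurable hU
  have h1 : 3 / 4 * ((mu R).prod ν).real T ≤
      (((mu R).prod ν).prod ν).real (MeasurableEquiv.prodAssoc ⁻¹' U) := by
    refine Bad.lower _ _ hU' hT fun p hp => ?_
    obtain ⟨v, c, hv, hc, h2, h3⟩ := h p hp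
    refine (hν.tail v hv).trans (measureReal_mono fun w hw => ?_)
    have hw' := abs_le.1 (show |⟪v, w⟫| ≤ 2 from hw)
    have hls : 0 ≤ l * s := mul_nonneg hl hs
    have h4 : 0 ≤ l * (⟪v, p.2⟫ - 4 * s) := mul_nonneg hl (by linarith)
    constructor
    · intro hm
      have := hc _ hm
      simp only [MeasurableEquiv.prodAssoc, MeasurableEquiv.coe_mk, Equiv.prodAssoc_apply,
        inner_add_right, real_inner_smul_right, ha, hb] at this
      nlinarith [mul_nonneg hls (show 0 ≤ ⟪v, w⟫ + 2 by linarith)]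
    · intro hm
      have := hc _ hm
      simp only [MeasurableEquiv.prodAssoc, MeasurableEquiv.coe_mk, Equiv.prodAssoc_apply,
        inner_add_right, inner_sub_right, real_inner_smul_right, ha, hb] at this
      nlinarith [mul_nonneg hls (show 0 ≤ 2 - ⟪v, w⟫ by linarith)]
  have h2 : (((mu R).prod ν).prod ν).real (MeasurableEquiv.prodAssoc ⁻¹' U) =
      ((mu R).prod (ν.prod ν)).real U :=
    (measurePreserving_prodAssoc (mu R) ν ν).measureReal_preimage hU.nullMeasurableSet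
  have i1 := Bad.int_rho hR (ν.prod ν) (f := fun p => a • p.1 + b • p.2) (by fun_prop)
  have i2 := Bad.int_rho hR (ν.prod ν) (f := fun p => a • p.1 + (-b) • p.2) (by fun_prop)
  have i3 := Bad.int_rho hR (ν.prod ν) (f := fun p => (0 : ℝ) • p.1 + (2 * b) • p.2) (by fun_prop)
  have h3 : ((mu R).prod (ν.prod ν)).real U ≤ ∫ p, (rho R (a • p.1 + b • p.2) +
      rho R (a • p.1 + (-b) • p.2) - rho R ((0 : ℝ) • p.1 + (2 * b) • p.2)) ∂ν.prod ν := by
    rw [Bad.fub_right _ _ hU]
    refine integral_mono_of_nonneg (Filter.Eventually.of_forall fun _ => measureReal_nonneg)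
      ((i1.add i2).sub i3) (Filter.Eventually.of_forall fun p => ?_)
    have := hR.tri_out (a • p.1) (b • p.2)
    beta_reduce
    rw [zero_smul, zero_add, neg_smul, ← sub_eq_add_neg, mul_smul (2 : ℝ) b]
    exact this
  have i12 : Integrable (fun p : E d × E d => rho R (a • p.1 + b • p.2) +
      rho R (a • p.1 + (-b) • p.2)) (ν.prod ν) := i1.add i2
  rw [integral_sub i12 i3, integral_add i1 i2, hν.mix _ _ _ hR.meas_rho,
    hν.mix _ _ _ hR.meas_rho, hν.mix _ _ _ hR.meas_rho] at h3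
  have e1 : √(a ^ 2 + b ^ 2) = 4 * l * √(1 + s ^ 2) := by
    rw [show a ^ 2 + b ^ 2 = (4 * l) ^ 2 * (1 + s ^ 2) by rw [ha, hb]; ring,
      Real.sqrt_mul (sq_nonneg _), Real.sqrt_sq (by linarith)]
  have e2 : √(a ^ 2 + (-b) ^ 2) = 4 * l * √(1 + s ^ 2) := by rw [neg_sq, e1]
  have e3 : √((0 : ℝ) ^ 2 + (2 * b) ^ 2) = 8 * l * s := by
    rw [show (0 : ℝ) ^ 2 + (2 * b) ^ 2 = (8 * l * s) ^ 2 by rw [hb]; ring,
      Real.sqrt_sq (by positivity)]
  rw [e1, e2, e3] at h3
  unfold ex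
  linarith

theorem angle_le (hR : Body R) (hν : Gau L ν) {θ Δ : ℝ} (hθ : 0 < θ) (hΔ : 0 ≤ Δ)
    {T : Set (E d)} (hT : MeasurableSet T)
    (h : ∀ y ∈ T, ∃ v c v' c', ‖L v‖ = 1 ∧ ‖L v'‖ = 1 ∧ (∀ x ∈ R, ⟪v, x⟫ < c) ∧
      (∀ x ∈ R, ⟪v', x⟫ < c') ∧ c - ⟪v, y⟫ ≤ Δ ∧ c' - ⟪v', y⟫ ≤ Δ ∧ θ ≤ ‖L v - L v'‖) :
    kap θ * (mu R).real T ≤ 3 * ex R ν (4 * Δ / θ) ^ 2 := by
  have := hR.prob
  have := hν.prob
  set k : ℝ := 4 * Δ / θ with hk
  have hk0 : 0 ≤ k := by positivity
  have hkθ : k * (θ / 4) = Δ := by rw [hk]; field_simp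
  let U : Set (E d × E d) := {q | q.1 + k • q.2 ∉ R ∧ q.1 - k • q.2 ∉ R}
  have hU : MeasurableSet U := by
    refine MeasurableSet.inter (hR.meas.compl.preimage (f := fun q : E d × E d =>
      q.1 + k • q.2) ?_) (hR.meas.compl.preimage (f := fun q : E d × E d =>
      q.1 - k • q.2) ?_) <;> fun_prop
  have h1 : kap θ * (mu R).real T ≤ ((mu R).prod ν).real U := by
    refine Bad.lower _ _ hU hT fun y hy => ?_
    obtain ⟨v, c, v', c', hv, hv', hc, hc', h2, h3, h4⟩ := h y hy
    refine (hν.wedge θ hθ v v' hv hv' h4).trans (measureReal_mono fun w hw => ?_)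
    obtain ⟨hw1, hw2⟩ := hw
    constructor
    · intro hm
      have := hc _ hm
      simp only [inner_add_right, real_inner_smul_right] at this
      nlinarith [mul_le_mul_of_nonneg_left hw1 hk0]
    · intro hm
      have := hc' _ hm
      simp only [inner_sub_right, real_inner_smul_right] at this
      nlinarith [mul_le_mul_of_nonneg_left hw2 hk0]
  have i1 : Integrable (fun w => rho R (k • w) ^ 2) ν :=
    Integrable.of_mem_Icc 0 1 ((hR.meas_rho.comp (by fun_prop)).pow_const 2).aemeasurable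
      (Filter.Eventually.of_forall fun _ =>
        ⟨sq_nonneg _, pow_le_one₀ (rho_nonneg _) (hR.rho_le_one _)⟩)
  have h2 : ((mu R).prod ν).real U ≤ ∫ w, rho R (k • w) ^ 2 ∂ν := by
    rw [Bad.fub_right _ _ hU]
    exact integral_mono_of_nonneg (Filter.Eventually.of_forall fun _ => measureReal_nonneg)
      i1 (Filter.Eventually.of_forall fun w => hR.both_out (k • w))
  exact h1.trans (h2.trans (ex_sq hR hν hk0))

end Pool.Agent.Lib.MP_bc94b4_co.Ac
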