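import Pool.Agent.Lib.MP_bc94b4_co.Ac.Defs

/-!
Rigidity: an acute set has no large family of almost parallel pairs.
-/

namespace Pool.Agent.Lib.MP_bc94b4_co.Ac

open MeasureTheory ProbabilityTheory Set
open scoped RealInnerProductSpace ENNReal

variable {d : ℕ} {R : Set (E d)} {S : Finset (E d)} {L : E d →L[ℝ] E d} {ν : Measure (E d)}

namespace Comb

theorem one_self {a c : E d} (h : c ≠ a) : ⟪(‖c - a‖ ^ 2)⁻¹ • (c - a), c - a⟫ = 1 := by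
  have h1 : ‖c - a‖ ≠ 0 := norm_ne_zero_iff.2 (sub_ne_zero.2 h)
  rw [real_inner_smul_left, real_inner_self_eq_norm_sq]
  field_simp

theorem strict
    (hac : ∀ a ∈ S, ∀ b ∈ S, ∀ c ∈ S, a ≠ b → a ≠ c → b ≠ c → 0 < ⟪b - a, c - a⟫)
    {a c s : E d} (ha : a ∈ S) (hc : c ∈ S) (hs : s ∈ S) (h : c ≠ a) (h1 : s ≠ a) (h2 : s ≠ c) :
    0 < ⟪(‖c - a‖ ^ 2)⁻¹ • (c - a), s - a⟫ ∧ ⟪(‖c - a‖ ^ 2)⁻¹ • (c - a), s - a⟫ < 1 := by
  have hp : 0 < ‖c - a‖ ^ 2 := pow_pos (norm_pos_iff.2 (sub_ne_zero.2 h)) 2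
  have e1 := hac a ha c hc s hs h.symm h1.symm h2.symm
  have e2 := hac c hc a ha s hs h h2.symm h1.symm
  have e3 : ⟪a - c, s - c⟫ = ‖c - a‖ ^ 2 - ⟪c - a, s - a⟫ := by
    have q1 : a - c = -(c - a) := by abel
    have q2 : s - c = (s - a) - (c - a) := by abel
    rw [q1, q2, inner_neg_left, inner_sub_right (c - a), real_inner_self_eq_norm_sq]
    ring
  rw [real_inner_smul_left]
  refine ⟨mul_pos (inv_pos.2 hp) e1, ?_⟩
  rw [inv_mul_lt_iff₀ hp]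
  linarith

theorem weak
    (hac : ∀ a ∈ S, ∀ b ∈ S, ∀ c ∈ S, a ≠ b → a ≠ c → b ≠ c → 0 < ⟪b - a, c - a⟫)
    {a c s : E d} (ha : a ∈ S) (hc : c ∈ S) (hs : s ∈ S) (h : c ≠ a) :
    0 ≤ ⟪(‖c - a‖ ^ 2)⁻¹ • (c - a), s - a⟫ ∧ ⟪(‖c - a‖ ^ 2)⁻¹ • (c - a), s - a⟫ ≤ 1 := by
  by_cases h1 : s = a
  · subst h1
    simp
  by_cases h2 : s = c
  · subst h2
    rw [one_self h]
    norm_num
  have := strict hac ha hc hs h h1 h2
  exact ⟨this.1.le, this.2.le⟩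

theorem half_le {p q : E d} (hp : ‖p‖ = 1) (hq : ‖q‖ = 1) (h : ‖p - q‖ ≤ 1) :
    1 / 2 ≤ ⟪p, q⟫ := by
  have e := norm_sub_sq_real p q
  rw [hp, hq] at e
  have : ‖p - q‖ ^ 2 ≤ 1 := by nlinarith [norm_nonneg (p - q)]
  linarith

theorem unit_norm {u : E d} (h : 0 < ‖u‖) : ‖‖u‖⁻¹ • u‖ = 1 := by
  rw [norm_smul, norm_inv, norm_norm, inv_mul_cancel₀ h.ne']

end Comb

theorem rigid (hd : 2 ≤ d) (σ : E d → ℝ)
    (hac : ∀ a ∈ S, ∀ b ∈ S, ∀ c ∈ S, a ≠ b → a ≠ c → b ≠ c → 0 < ⟪b - a, c - a⟫)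
    (dual : ∀ n x, |⟪n, x⟫| ≤ σ n * ‖L x‖)
    (lift : ∀ φ, ∃ n, σ n ≤ ‖φ‖ ∧ ∀ x, ⟪n, x⟫ = ⟪φ, L x⟫) (h0 : ∀ n, 0 ≤ σ n)
    (one : ∀ a ∈ S, ∀ b ∈ S, a ≠ b → σ ((‖b - a‖ ^ 2)⁻¹ • (b - a)) ≤ 1)
    {A : Finset (E d)} (hA : A ⊆ S) {b : E d → E d} (hb : ∀ a ∈ A, b a ∈ S)
    (hne : ∀ a ∈ A, b a ≠ a) (hi : Set.InjOn b A)
    (mat : ∀ n, ∑ a ∈ A, ⟪n, b a - a⟫ ^ 2 ≤ 16 * 2 ^ d * σ n ^ 2)
    (spr : ∀ n, ∀ T ⊆ S, (1 - 1 / 80000) * 2 ^ d ≤ (T.card : ℝ) → ∀ m l : ℝ,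
      (∀ s ∈ T, |⟪n, s⟫ - m| ≤ l) → σ n ≤ 2 * l)
    (par : ∀ a ∈ A, ∀ a' ∈ A, ‖‖L (b a - a)‖⁻¹ • L (b a - a) -
      ‖L (b a' - a')‖⁻¹ • L (b a' - a')‖ ≤ 1 / (4 * 10 ^ 8)) :
    (A.card : ℝ) < (1 / 2 - 2 / 10 ^ 6) * 2 ^ d := by
  classical
  by_contra hc
  rw [not_lt] at hc
  obtain ⟨n, hn⟩ : ∃ n : E d → E d, ∀ a, n a = (‖b a - a‖ ^ 2)⁻¹ • (b a - a) := ⟨_, fun _ => rfl⟩
  obtain ⟨r, hr⟩ : ∃ r : E d → ℝ, ∀ a, r a = ‖L (b a - a)‖ := ⟨_, fun _ => rfl⟩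
  have h4 : (4 : ℝ) ≤ 2 ^ d := by
    calc (4 : ℝ) = 2 ^ 2 := by norm_num
      _ ≤ 2 ^ d := pow_le_pow_right₀ (by norm_num) hd
  have n1 : ∀ a ∈ A, ⟪n a, b a - a⟫ = 1 := fun a ha => by
    rw [hn]; exact Comb.one_self (hne a ha)
  have ns : ∀ a ∈ A, σ (n a) ≤ 1 := fun a ha => by
    rw [hn]; exact one a (hA ha) (b a) (hb a ha) (hne a ha).symm
  have nd : ∀ a ∈ A, ∀ x, |⟪n a, x⟫| ≤ ‖L x‖ := fun a ha x =>
    (dual _ _).trans (by nlinarith [ns a ha, norm_nonneg (L x)])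
  have r1 : ∀ a ∈ A, 1 ≤ r a := fun a ha => by
    have := nd a ha (b a - a)
    rw [n1 a ha, abs_one] at this
    rwa [hr]
  have nw : ∀ a ∈ A, ∀ s ∈ S, 0 ≤ ⟪n a, s - a⟫ ∧ ⟪n a, s - a⟫ ≤ 1 := fun a ha s hs => by
    rw [hn]; exact Comb.weak hac (hA ha) (hb a ha) hs (hne a ha)
  have nst : ∀ a ∈ A, ∀ s ∈ S, s ≠ a → s ≠ b a → 0 < ⟪n a, s - a⟫ := fun a ha s hs h1 h2 => by
    rw [hn]; exact (Comb.strict hac (hA ha) (hb a ha) hs (hne a ha) h1 h2).1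
  have nsplit : ∀ a a' : E d, ⟪n a, b a' - a'⟫ = ⟪n a, b a' - a⟫ - ⟪n a, a' - a⟫ := fun a a' => by
    rw [← inner_sub_right]; congr 1; abel
  have nle : ∀ a ∈ A, ∀ a' ∈ A, ⟪n a, b a' - a'⟫ ≤ 1 := fun a ha a' ha' => by
    rw [nsplit]
    linarith [(nw a ha _ (hb a' ha')).2, (nw a ha _ (hA ha')).1]
  have un : ∀ a ∈ A, ‖‖L (b a - a)‖⁻¹ • L (b a - a)‖ = 1 := fun a ha =>
    Comb.unit_norm (by have := r1 a ha; rw [hr] at this; linarith)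
  have back : ∀ a ∈ A, L (b a - a) = r a • (‖L (b a - a)‖⁻¹ • L (b a - a)) := fun a ha => by
    have := r1 a ha
    rw [smul_smul, ← hr, mul_inv_cancel₀ (by linarith), one_smul]
  -- the second moment of r
  have hApos : (0 : ℝ) < A.card := lt_of_lt_of_le (by positivity) hc
  obtain ⟨a0, ha0⟩ : A.Nonempty := Finset.card_pos.1 (by exact_mod_cast hApos)
  have hsum : ∑ a ∈ A, r a ^ 2 ≤ 64 * 2 ^ d := by
    obtain ⟨n0, hs0, hn0⟩ := lift (‖L (b a0 - a0)‖⁻¹ • L (b a0 - a0))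
    rw [un a0 ha0] at hs0
    have k1 : ∀ a ∈ A, r a ^ 2 ≤ 4 * ⟪n0, b a - a⟫ ^ 2 := fun a ha => by
      have e : ⟪n0, b a - a⟫ = r a * ⟪‖L (b a0 - a0)‖⁻¹ • L (b a0 - a0),
          ‖L (b a - a)‖⁻¹ • L (b a - a)⟫ := by
        rw [hn0, ← real_inner_smul_right, ← back a ha]
      have k := Comb.half_le (un a0 ha0) (un a ha) ((par a0 ha0 a ha).trans (by norm_num))
      have k2 : r a / 2 ≤ ⟪n0, b a - a⟫ := by
        rw [e]; nlinarith [r1 a ha]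
      nlinarith [r1 a ha]
    have k3 := Finset.sum_le_sum k1
    rw [← Finset.mul_sum] at k3
    have k4 := mat n0
    have k5 : σ n0 ^ 2 ≤ 1 := by nlinarith [h0 n0]
    have k6 : 16 * 2 ^ d * σ n0 ^ 2 ≤ 16 * 2 ^ d * (1 : ℝ) :=
      mul_le_mul_of_nonneg_left k5 (by positivity)
    linarith
  obtain ⟨J, hJ⟩ : ∃ J : Finset (E d), J = A.filter (fun a => r a ≤ 10 ^ 4) := ⟨_, rfl⟩
  have JA : ∀ a ∈ J, a ∈ A := fun a ha => by rw [hJ] at ha; exact (Finset.mem_filter.1 ha).1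
  have Jr : ∀ a ∈ J, r a ≤ 10 ^ 4 := fun a ha => by rw [hJ] at ha; exact (Finset.mem_filter.1 ha).2
  have Jc : (1 - 1 / 80000) * 2 ^ d ≤ 2 * (J.card : ℝ) := by
    have c1 := Finset.card_filter_add_card_filter_not (s := A) (fun a => r a ≤ 10 ^ 4)
    have c2 : ((A.filter (fun a => ¬ r a ≤ 10 ^ 4)).card : ℝ) * 10 ^ 8 ≤ ∑ a ∈ A, r a ^ 2 := by
      calc ((A.filter (fun a => ¬ r a ≤ 10 ^ 4)).card : ℝ) * 10 ^ 8
          = ∑ _a ∈ A.filter (fun a => ¬ r a ≤ 10 ^ 4), (10 ^ 8 : ℝ) := by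
            rw [Finset.sum_const, nsmul_eq_mul]
        _ ≤ ∑ a ∈ A.filter (fun a => ¬ r a ≤ 10 ^ 4), r a ^ 2 := by
            refine Finset.sum_le_sum fun a ha => ?_
            have := not_le.1 (Finset.mem_filter.1 ha).2
            nlinarith
        _ ≤ ∑ a ∈ A, r a ^ 2 :=
            Finset.sum_le_sum_of_subset_of_nonneg (Finset.filter_subset _ _)
              (fun a _ _ => sq_nonneg _)
    have c3 : (J.card : ℝ) + ((A.filter (fun a => ¬ r a ≤ 10 ^ 4)).card : ℝ) = A.card := by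
      rw [hJ]; exact_mod_cast c1
    norm_num at c2 hc ⊢
    norm_num at c3
    linarith
  -- the vectors are close on J
  have rr : ∀ a ∈ J, ∀ a' ∈ J, r a' ≤ r a + 1 / 4 := fun a ha a' ha' => by
    have p1 := r1 a (JA a ha)
    have p2 := r1 a' (JA a' ha')
    have e1 : L ((r a')⁻¹ • (b a' - a') - (r a)⁻¹ • (b a - a)) =
        ‖L (b a' - a')‖⁻¹ • L (b a' - a') - ‖L (b a - a)‖⁻¹ • L (b a - a) := by
      rw [map_sub, map_smul, map_smul, hr, hr]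
    have e2 := nd a (JA a ha) ((r a')⁻¹ • (b a' - a') - (r a)⁻¹ • (b a - a))
    rw [e1, inner_sub_right, real_inner_smul_right, real_inner_smul_right, n1 a (JA a ha),
      mul_one] at e2
    have e3 := (abs_le.1 (e2.trans (par a' (JA a' ha') a (JA a ha)))).1
    have e4 : (r a')⁻¹ * ⟪n a, b a' - a'⟫ ≤ (r a')⁻¹ * 1 :=
      mul_le_mul_of_nonneg_left (nle a (JA a ha) a' (JA a' ha')) (inv_nonneg.2 (by linarith))
    have e5 : (r a)⁻¹ ≤ (r a')⁻¹ + 1 / (4 * 10 ^ 8) := by linarith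
    have e6 : r a * r a' * (r a)⁻¹ ≤ r a * r a' * ((r a')⁻¹ + 1 / (4 * 10 ^ 8)) :=
      mul_le_mul_of_nonneg_left e5 (by positivity)
    have e7 : r a * r a' * (r a)⁻¹ = r a' := by field_simp
    have e8 : r a * r a' * ((r a')⁻¹ + 1 / (4 * 10 ^ 8)) =
        r a + r a * r a' / (4 * 10 ^ 8) := by field_simp
    have e9 : r a * r a' ≤ 10 ^ 4 * 10 ^ 4 :=
      mul_le_mul (Jr a ha) (Jr a' ha') (by linarith) (by norm_num)
    rw [e7, e8] at e6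
    have : r a * r a' / (4 * 10 ^ 8) ≤ 1 / 4 := by
      rw [div_le_iff₀ (by norm_num)]; linarith
    linarith
  have close : ∀ a ∈ J, ∀ a' ∈ J, ‖L ((b a - a) - (b a' - a'))‖ ≤ 1 / 2 := fun a ha a' ha' => by
    obtain ⟨p, hp⟩ : ∃ p, p = ‖L (b a - a)‖⁻¹ • L (b a - a) := ⟨_, rfl⟩
    obtain ⟨q, hq⟩ : ∃ q, q = ‖L (b a' - a')‖⁻¹ • L (b a' - a') := ⟨_, rfl⟩
    have b1 := back a (JA a ha)
    have b2 := back a' (JA a' ha')
    have u1 := un a (JA a ha)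
    have u2 := par a (JA a ha) a' (JA a' ha')
    rw [← hp] at b1 u1 u2
    rw [← hq] at b2 u2
    have e : L ((b a - a) - (b a' - a')) = (r a - r a') • p + r a' • (p - q) := by
      rw [map_sub, b1, b2, sub_smul, smul_sub]; abel
    have p2 := r1 a' (JA a' ha')
    have k1 : |r a - r a'| ≤ 1 / 4 := abs_le.2 ⟨by linarith [rr a ha a' ha'],
      by linarith [rr a' ha' a ha]⟩
    have k2 : r a' * ‖p - q‖ ≤ 10 ^ 4 * (1 / (4 * 10 ^ 8)) :=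
      mul_le_mul (Jr a' ha') u2 (norm_nonneg _) (by norm_num)
    rw [e]
    refine (norm_add_le _ _).trans ?_
    rw [norm_smul, norm_smul, u1, Real.norm_eq_abs, Real.norm_eq_abs, abs_of_nonneg (a := r a')
      (by linarith)]
    norm_num at k2 ⊢
    linarith
  have notJ : ∀ a ∈ J, b a ∉ J := fun a ha hba => by
    have k1 := (abs_le.1 ((nd a (JA a ha) _).trans (close a ha (b a) hba))).2
    rw [inner_sub_right, n1 a (JA a ha), nsplit a (b a), n1 a (JA a ha)] at k1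
    linarith [(nw a (JA a ha) _ (hb _ (JA _ hba))).2]
  have hdis : Disjoint J (J.image b) := by
    rw [Finset.disjoint_right]
    intro s hs
    obtain ⟨k, hk, rfl⟩ := Finset.mem_image.1 hs
    exact notJ k hk
  have Tc : ((J ∪ J.image b).card : ℝ) = 2 * J.card := by
    rw [Finset.card_union_of_disjoint hdis,
      Finset.card_image_of_injOn (hi.mono fun a ha => JA a ha)]
    push_cast; ring
  have TS : J ∪ J.image b ⊆ S := by
    intro s hs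
    rcases Finset.mem_union.1 hs with h | h
    · exact hA (JA s h)
    · obtain ⟨k, hk, rfl⟩ := Finset.mem_image.1 h
      exact hb k (JA k hk)
  have J2 : 1 < J.card := by
    have : (1 : ℝ) < J.card := by nlinarith
    exact_mod_cast this
  have hoff : J.offDiag.Nonempty := by
    obtain ⟨x, hx, y, hy, hxy⟩ := Finset.one_lt_card.1 J2
    exact ⟨(x, y), Finset.mem_offDiag.2 ⟨hx, hy, hxy⟩⟩
  obtain ⟨⟨i, j⟩, hij, hmax⟩ := Finset.exists_max_image J.offDiag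
    (fun p => 1 - ⟪n p.1, b p.2 - p.2⟫) hoff
  obtain ⟨hiJ, hjJ, hne'⟩ := Finset.mem_offDiag.1 hij
  simp only at hiJ hjJ hne' hmax
  obtain ⟨D, hD⟩ : ∃ D, D = 1 - ⟪n i, b j - j⟫ := ⟨_, rfl⟩
  rw [← hD] at hmax
  have dpos : ∀ x ∈ J, ∀ y ∈ J, x ≠ y → 0 < 1 - ⟪n x, b y - y⟫ := fun x hx y hy hxy => by
    rw [nsplit]
    have k1 := nst x (JA x hx) y (hA (JA y hy)) hxy.symm (fun h => notJ x hx (h ▸ hy))
    linarith [(nw x (JA x hx) _ (hb y (JA y hy))).2]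
  have D0 : 0 < D := by rw [hD]; exact dpos i hiJ j hjJ hne'
  have lo : ∀ x ∈ J, ∀ s ∈ J, ⟪n x, s - x⟫ ≤ D := fun x hx s hs => by
    by_cases h : x = s
    · subst h; simpa using D0.le
    have k1 := hmax (x, s) (Finset.mem_offDiag.2 ⟨hx, hs, h⟩)
    simp only at k1
    rw [nsplit] at k1
    linarith [(nw x (JA x hx) _ (hb s (JA s hs))).2]
  have up : ∀ x ∈ J, ∀ k ∈ J, 1 - D ≤ ⟪n x, b k - x⟫ := fun x hx k hk => by
    by_cases h : x = k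
    · subst h; rw [n1 x (JA x hx)]; linarith
    have k1 := hmax (x, k) (Finset.mem_offDiag.2 ⟨hx, hk, h⟩)
    simp only at k1
    rw [nsplit] at k1
    linarith [(nw x (JA x hx) _ (hA (JA k hk))).1]
  have key := spr (n i - n j) _ TS (by rw [Tc]; exact Jc) (⟪n i, i⟫ - ⟪n j, j⟫) D (by
    intro s hs
    have e : ⟪n i - n j, s⟫ - (⟪n i, i⟫ - ⟪n j, j⟫) = ⟪n i, s - i⟫ - ⟪n j, s - j⟫ := by
      rw [inner_sub_left, inner_sub_right, inner_sub_right]; ring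
    rw [e, abs_le]
    rcases Finset.mem_union.1 hs with h | h
    · have w1 := (nw i (JA i hiJ) s (hA (JA s h))).1
      have w2 := (nw j (JA j hjJ) s (hA (JA s h))).1
      constructor <;> linarith [lo i hiJ s h, lo j hjJ s h]
    · obtain ⟨k, hk, rfl⟩ := Finset.mem_image.1 h
      have w1 := (nw i (JA i hiJ) _ (hb k (JA k hk))).2
      have w2 := (nw j (JA j hjJ) _ (hb k (JA k hk))).2
      constructor <;> linarith [up i hiJ k hk, up j hjJ k hk])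
  have f1 := (le_abs_self _).trans (dual (n i - n j) ((b i - i) - (b j - j)))
  have f2 : σ (n i - n j) * ‖L ((b i - i) - (b j - j))‖ ≤ 2 * D * (1 / 2) :=
    mul_le_mul key (close i hiJ j hjJ) (norm_nonneg _) (by linarith)
  rw [inner_sub_left, inner_sub_right (n i) (b i - i), inner_sub_right (n j) (b i - i),
    n1 i (JA i hiJ), n1 j (JA j hjJ)] at f1
  have f3 := dpos j hjJ i hiJ hne'.symm
  linarith

end Pool.Agent.Lib.MP_bc94b4_co.Ac
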