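import Mathlib

/-!
Working definitions for the constant-factor upper bound on acute sets.
-/

namespace Pool.Agent.Lib.MP_bc94b4_co.Ac

open MeasureTheory ProbabilityTheory Set
open scoped RealInnerProductSpace

noncomputable section

/-- Euclidean space -/
abbrev E (d : ℕ) := EuclideanSpace ℝ (Fin d)

variable {d : ℕ}

/-- a bounded open convex nonempty set -/
structure Body (R : Set (E d)) : Prop where
  opn : IsOpen R
  cvx : Convex ℝ R
  bdd : Bornology.IsBounded R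
  ne : R.Nonempty

/-- the uniform law on `R` -/
def mu (R : Set (E d)) : Measure (E d) := (volume R)⁻¹ • volume.restrict R

/-- the probability that a shift by `z` leaves `R` -/
def rho (R : Set (E d)) (z : E d) : ℝ := (mu R).real {y | y + z ∉ R}

/-- the standard deviation of a linear functional -/
def sig (R : Set (E d)) (n : E d) : ℝ := √(Var[fun y => ⟪n, y⟫; mu R])

/-- the half-size copies `(a + R) / 2`, `a ∈ S`, lie in `R` and are pairwise disjoint -/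
structure Til (S : Finset (E d)) (R : Set (E d)) : Prop where
  mid : ∀ a ∈ S, ∀ y ∈ R, (2 : ℝ)⁻¹ • (a + y) ∈ R
  dis : ∀ a ∈ S, ∀ b ∈ S, a ≠ b → ∀ y ∈ R, ∀ y' ∈ R, a + y ≠ b + y'

/-- the half-size copy of `R` at `a` -/
def tile (R : Set (E d)) (a : E d) : Set (E d) := {x | (2 : ℝ) • x - a ∈ R}

/-- a Gaussian tail -/
def p0 : ℝ := (gaussianReal 0 1).real (Ici 1)

/-- a lower bound for the Gaussian measure of a wedge -/
def kap (θ : ℝ) : ℝ := p0 * (gaussianReal 0 1).real (Icc (-(θ / 4)) (θ / 4))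

/-- the properties of the centred Gaussian law for which `⟪v, w⟫` has variance `‖L v‖ ^ 2` -/
structure Gau (L : E d →L[ℝ] E d) (ν : Measure (E d)) : Prop where
  prob : IsProbabilityMeasure ν
  mix : ∀ (a b : ℝ) (F : E d → ℝ), Measurable F →
    ∫ p, F (a • p.1 + b • p.2) ∂ν.prod ν = ∫ w, F (√(a ^ 2 + b ^ 2) • w) ∂ν
  mix2 : ∀ F G : E d → ℝ, Measurable F → Measurable G →
    ∫ p, F (p.1 + p.2) * G (p.1 - p.2) ∂ν.prod ν = (∫ w, F (√2 • w) ∂ν) * ∫ w, G (√2 • w) ∂ν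
  tail : ∀ v, ‖L v‖ = 1 → 3 / 4 ≤ ν.real {w | |⟪v, w⟫| ≤ 2}
  up : ∀ v, ‖L v‖ = 1 → p0 ≤ ν.real {w | 1 ≤ ⟪v, w⟫}
  wedge : ∀ θ, 0 < θ → ∀ v v', ‖L v‖ = 1 → ‖L v'‖ = 1 → θ ≤ ‖L v - L v'‖ →
    kap θ ≤ ν.real {w | θ / 4 ≤ ⟪v, w⟫ ∧ ⟪v', w⟫ ≤ -(θ / 4)}

/-- the mean exit probability at scale `l` -/
def ex (R : Set (E d)) (ν : Measure (E d)) (l : ℝ) : ℝ := ∫ w, rho R (l • w) ∂ν

/-- `L` puts `R` in isotropic position -/
structure Iso (R : Set (E d)) (L : E d →L[ℝ] E d) : Prop where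
  dual : ∀ n x, |⟪n, x⟫| ≤ sig R n * ‖L x‖
  lift : ∀ φ, ∃ n, sig R n ≤ ‖φ‖ ∧ ∀ x, ⟪n, x⟫ = ⟪φ, L x⟫

end

end Pool.Agent.Lib.MP_bc94b4_co.Ac
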