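import Pool.Agent.Lib.MP_bc94b4_co.Ac.Defs

/-!
The Gaussian law of the shifts.
-/

namespace Pool.Agent.Lib.MP_bc94b4_co.Ac

open MeasureTheory ProbabilityTheory Set
open scoped RealInnerProductSpace ENNReal

variable {d : ℕ} {R : Set (E d)} {S : Finset (E d)} {L : E d →L[ℝ] E d} {ν : Measure (E d)}

namespace Gauss

lemma pos_of_vol {s : Set ℝ} (hs : volume s ≠ 0) : 0 < (gaussianReal 0 1).real s := by
  refine ENNReal.toReal_pos (fun h => hs ?_) (measure_ne_top _ _)
  exact gaussianReal_absolutelyContinuous' 0 (v := 1) one_ne_zero h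

lemma law (u : E d) : (stdGaussian (E d)).map (fun g => ⟪u, g⟫) =
    (gaussianReal 0 1).map (fun z => ‖u‖ * z) := by
  have h := IsGaussian.map_eq_gaussianReal (μ := stdGaussian (E d)) (innerSL ℝ u)
  rw [integral_strongDual_stdGaussian, variance_dual_stdGaussian, innerSL_apply_norm] at h
  rw [gaussianReal_map_const_mul, mul_zero, mul_one]
  refine Eq.trans ?_ (h.trans ?_)
  · rfl
  · congr 1
    exact Real.toNNReal_of_nonneg (sq_nonneg _)

lemma law_set (u : E d) {s : Set ℝ} (hs : MeasurableSet s) :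
    (stdGaussian (E d)) ((fun g => ⟪u, g⟫) ⁻¹' s) =
      (gaussianReal 0 1) ((fun z => ‖u‖ * z) ⁻¹' s) := by
  rw [← Measure.map_apply (by fun_prop) hs, law, Measure.map_apply (by fun_prop) hs]

lemma indep {u u' : E d} (h : ⟪u, u'⟫ = 0) :
    IndepFun (fun g => ⟪u, g⟫) (fun g => ⟪u', g⟫) (stdGaussian (E d)) := by
  refine HasGaussianLaw.indepFun_of_covariance_eq_zero ?_ ?_
  · exact (IsGaussian.hasGaussianLaw_id (μ := stdGaussian (E d))).map_fun
      ((innerSL ℝ u).prod (innerSL ℝ u'))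
  · rw [← covarianceBilin_apply_eq_cov IsGaussian.memLp_two_id, covarianceBilin_stdGaussian]
    exact h

lemma cheb : 3 / 4 ≤ (gaussianReal 0 1).real (Icc (-2) 2) := by
  have h := meas_ge_le_variance_div_sq (μ := gaussianReal 0 1) (X := id)
    IsGaussian.memLp_two_id (c := 2) two_pos
  simp only [id_eq, integral_id_gaussianReal, sub_zero, variance_id_gaussianReal] at h
  have h1 : (gaussianReal 0 1).real (Icc (-2) 2)ᶜ ≤ 1 / 4 := by
    refine le_trans (measureReal_mono (s₂ := {ω : ℝ | 2 ≤ |ω|}) fun x hx => ?_) ?_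
    · by_contra hc
      exact hx (abs_le.1 (not_le.1 hc).le)
    · refine ENNReal.toReal_le_of_le_ofReal (by norm_num) (h.trans (le_of_eq ?_))
      norm_num
  rw [probReal_compl_eq_one_sub measurableSet_Icc] at h1
  linarith

lemma wedge_std {θ : ℝ} (hθ : 0 < θ) {u u' : E d} (hu : ‖u‖ = 1) (hu' : ‖u'‖ = 1)
    (h : θ ≤ ‖u - u'‖) :
    kap θ ≤ (stdGaussian (E d)).real {g | θ / 4 ≤ ⟪u, g⟫ ∧ ⟪u', g⟫ ≤ -(θ / 4)} := by
  have h0 : ⟪u - u', u + u'⟫ = 0 := by
    rw [inner_sub_left, inner_add_right, inner_add_right, real_inner_self_eq_norm_sq,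
      real_inner_self_eq_norm_sq, hu, hu', real_inner_comm]
    ring
  have h1 := (indep h0).measure_inter_preimage_eq_mul (Ici θ) (Icc (-(θ / 2)) (θ / 2))
    measurableSet_Ici measurableSet_Icc
  rw [law_set _ measurableSet_Ici, law_set _ measurableSet_Icc] at h1
  have h2 : ‖u + u'‖ ≤ 2 := by
    have := norm_add_le u u'
    linarith
  have h3 : (stdGaussian (E d)).real ((fun g => ⟪u - u', g⟫) ⁻¹' Ici θ ∩
      (fun g => ⟪u + u', g⟫) ⁻¹' Icc (-(θ / 2)) (θ / 2)) =
      (gaussianReal 0 1).real ((fun z => ‖u - u'‖ * z) ⁻¹' Ici θ) *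
        (gaussianReal 0 1).real ((fun z => ‖u + u'‖ * z) ⁻¹' Icc (-(θ / 2)) (θ / 2)) := by
    simp only [Measure.real, h1, ENNReal.toReal_mul]
  refine le_trans ?_ (le_trans h3.ge (measureReal_mono fun g hg => ?_))
  · refine mul_le_mul (measureReal_mono fun z hz => ?_) (measureReal_mono fun z hz => ?_)
      measureReal_nonneg measureReal_nonneg
    · have hz' : 1 ≤ z := hz
      show θ ≤ ‖u - u'‖ * z
      nlinarith
    · have := norm_nonneg (u + u')
      obtain ⟨a, b⟩ := hz
      constructor <;> nlinarith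
  · obtain ⟨a, b, c⟩ := hg
    simp only [mem_preimage, mem_Ici, inner_sub_left, inner_add_left] at a b c
    constructor <;> linarith

lemma polar (a b : ℝ) : ∃ t, a = √(a ^ 2 + b ^ 2) * Real.cos t ∧
    b = √(a ^ 2 + b ^ 2) * Real.sin t := by
  have h : ‖(⟨a, b⟩ : ℂ)‖ = √(a ^ 2 + b ^ 2) := by
    rw [Complex.norm_eq_sqrt_sq_add_sq]
  refine ⟨Complex.arg ⟨a, b⟩, ?_, ?_⟩
  · rw [← h, Complex.norm_mul_cos_arg]
  · rw [← h, Complex.norm_mul_sin_arg]

lemma rot [IsGaussian ν] (hν : ∀ f : StrongDual ℝ (E d), ν[f] = 0) (t : ℝ) (H : E d × E d → ℝ)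
    (hH : Measurable H) :
    ∫ p, H (Real.cos t • p.1 + Real.sin t • p.2, -Real.sin t • p.1 + Real.cos t • p.2)
      ∂ν.prod ν = ∫ p, H p ∂ν.prod ν := by
  conv_rhs => rw [← IsGaussian.map_rotation_eq_self_of_forall_strongDual_eq_zero hν t]
  rw [integral_map (by fun_prop) hH.aestronglyMeasurable]
  rfl

end Gauss

lemma p0_pos : 0 < p0 := Gauss.pos_of_vol (by simp)

lemma kap_pos {θ : ℝ} (hθ : 0 < θ) : 0 < kap θ := by
  refine mul_pos p0_pos (Gauss.pos_of_vol ?_)
  simp only [Real.volume_Icc, ne_eq, ENNReal.ofReal_eq_zero, not_le]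
  linarith

theorem exists_gau (L : E d →L[ℝ] E d) : ∃ ν, Gau L ν := by
  set A : E d →L[ℝ] E d := ContinuousLinearMap.adjoint L with hA
  have hin : ∀ v g, ⟪v, A g⟫ = ⟪L v, g⟫ := fun v g =>
    ContinuousLinearMap.adjoint_inner_right L v g
  have hc : ∀ f : StrongDual ℝ (E d), ((stdGaussian (E d)).map A)[f] = 0 := fun f => by
    rw [integral_map (by fun_prop) (by fun_prop)]
    exact integral_strongDual_stdGaussian (f.comp A)
  have hre : ∀ s : Set (E d), MeasurableSet s →
      ((stdGaussian (E d)).map A).real s = (stdGaussian (E d)).real (A ⁻¹' s) := fun s hs =>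
    map_measureReal_apply (by fun_prop) hs
  have one : ∀ v, ‖L v‖ = 1 → ∀ s : Set ℝ, MeasurableSet s →
      ((stdGaussian (E d)).map A).real ((fun w => ⟪v, w⟫) ⁻¹' s) = (gaussianReal 0 1).real s := by
    intro v hv s hs
    rw [hre _ (hs.preimage (by fun_prop))]
    have := Gauss.law_set (L v) hs
    simp only [hv, one_mul, preimage_id'] at this
    rw [Measure.real, Measure.real, ← this]
    congr 2
    ext g
    simp only [mem_preimage, hin]
  refine ⟨(stdGaussian (E d)).map A, inferInstance, fun a b F hF => ?_, fun F G hF hG => ?_,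
    fun v hv => ?_, fun v hv => ?_, fun θ hθ v v' hv hv' h => ?_⟩
  · obtain ⟨t, ha, hb⟩ := Gauss.polar a b
    have h := Gauss.rot hc t (fun p => F (√(a ^ 2 + b ^ 2) • p.1)) (by fun_prop)
    rw [integral_fun_fst (fun w => F (√(a ^ 2 + b ^ 2) • w))] at h
    simp only [probReal_univ, smul_eq_mul, one_mul, smul_add, smul_smul, ← ha, ← hb] at h
    exact h
  · have h := Gauss.rot hc (Real.pi / 4) (fun p => F (√2 • p.1) * G (√2 • p.2)) (by fun_prop)
    rw [integral_prod_mul (fun w => F (√2 • w)) (fun w => G (√2 • w))] at h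
    have e : √2 * (√2 / 2) = 1 := by
      rw [← mul_div_assoc, Real.mul_self_sqrt (by norm_num)]
      norm_num
    simp only [Real.cos_pi_div_four, Real.sin_pi_div_four, smul_add, smul_neg, smul_smul, e,
      one_smul, neg_smul] at h
    rw [← h, ← integral_prod_swap]
    congr 1
    ext p
    simp only [Prod.fst_swap, Prod.snd_swap, add_comm p.2 p.1, neg_add_eq_sub]
  · refine Gauss.cheb.trans (le_of_eq ?_)
    rw [← one v hv _ measurableSet_Icc]
    congr 1
    ext w
    simp only [mem_preimage, mem_Icc, mem_ofPred_eq, abs_le]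
  · exact (one v hv _ measurableSet_Ici).ge
  · refine (Gauss.wedge_std hθ hv hv' h).trans (le_of_eq ?_)
    rw [hre]
    · congr 1
      ext g
      simp only [mem_preimage, mem_ofPred_eq, hin]
    · have m1 : MeasurableSet {w : E d | θ / 4 ≤ ⟪v, w⟫} :=
        measurableSet_le (by fun_prop) (by fun_prop)
      have m2 : MeasurableSet {w : E d | ⟪v', w⟫ ≤ -(θ / 4)} :=
        measurableSet_le (by fun_prop) (by fun_prop)
      exact m1.inter m2

end Pool.Agent.Lib.MP_bc94b4_co.Ac
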