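import Pool.Agent.Lib.MP_bc94b4_co.Ac.BM

/-!
Isotropic position.
-/

namespace Pool.Agent.Lib.MP_bc94b4_co.Ac

open MeasureTheory ProbabilityTheory Set
open scoped RealInnerProductSpace ENNReal

variable {d : ℕ} {R : Set (E d)} {S : Finset (E d)} {L : E d →L[ℝ] E d} {ν : Measure (E d)}

namespace IsoAux

/-- an orthonormal spanning family for a positive definite form -/
lemma exists_frame (B : LinearMap.BilinForm ℝ (E d)) (hs : B.IsSymm)
    (hp : ∀ n, n ≠ 0 → 0 < B n n) :
    ∃ f : Fin d → E d, (∀ a : E d, B (∑ i, a i • f i) (∑ i, a i • f i) = ‖a‖ ^ 2) ∧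
      ∀ n, ∃ a : E d, ∑ i, a i • f i = n := by
  obtain ⟨v₀, hv₀⟩ := LinearMap.BilinForm.exists_orthogonal_basis (B := B)
    ⟨fun x y => hs.eq x y⟩
  have hd : Module.finrank ℝ (E d) = d := finrank_euclideanSpace_fin
  let v := v₀.reindex (finCongr hd)
  have hv : ∀ i j, i ≠ j → B (v i) (v j) = 0 := by
    intro i j hij
    simp only [v, Module.Basis.reindex_apply]
    exact hv₀ fun h => hij ((finCongr hd).symm.injective h)
  have hpos : ∀ i, 0 < √(B (v i) (v i)) := fun i => Real.sqrt_pos.2 (hp _ (v.ne_zero i))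
  refine ⟨fun i => (√(B (v i) (v i)))⁻¹ • v i, fun a => ?_, fun n => ?_⟩
  · rw [EuclideanSpace.real_norm_sq_eq, LinearMap.BilinForm.sum_left]
    refine Finset.sum_congr rfl fun i _ => ?_
    rw [LinearMap.BilinForm.sum_right, Finset.sum_eq_single i]
    · simp only [LinearMap.BilinForm.smul_left, LinearMap.BilinForm.smul_right]
      have h1 := Real.mul_self_sqrt (hp _ (v.ne_zero i)).le
      have h2 := (hpos i).ne'
      generalize √(B (v i) (v i)) = s at h1 h2
      rw [← h1]
      field_simp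
    · intro j _ hj
      simp only [LinearMap.BilinForm.smul_left, LinearMap.BilinForm.smul_right,
        hv i j (Ne.symm hj), mul_zero]
    · simp
  · refine ⟨WithLp.toLp 2 fun i => v.repr n i * √(B (v i) (v i)), ?_⟩
    conv_rhs => rw [← v.sum_repr n]
    refine Finset.sum_congr rfl fun i _ => ?_
    rw [smul_smul]
    congr 1
    exact mul_inv_cancel_right₀ (hpos i).ne' _

lemma memLp_id (hR : Body R) : MemLp id 2 (mu R) := by
  have := hR.prob
  obtain ⟨C, hC⟩ := hR.bdd.exists_norm_le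
  refine MemLp.of_bound aestronglyMeasurable_id C ?_
  filter_upwards [hR.ae_mem] with y hy using hC y hy

lemma var_pos (hR : Body R) {n : E d} (hn : n ≠ 0) : 0 < Var[fun y => ⟪n, y⟫; mu R] := by
  have := hR.prob
  refine lt_of_le_of_ne (variance_nonneg _ _) fun h => hn ?_
  have hm : MemLp (fun y => ⟪n, y⟫) 2 (mu R) := (innerSL ℝ n).comp_memLp' (memLp_id hR)
  have h1 := ae_eq_integral_of_variance_eq_zero hm h.symm
  set c := ∫ y, ⟪n, y⟫ ∂mu R
  have h2 : (fun y => ⟪n, y⟫) =ᵐ[volume.restrict R] fun _ => c :=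
    (Measure.ae_ennreal_smul_measure_iff (ENNReal.inv_ne_zero.2 hR.vol_fin)).1 h1
  have h3 := Measure.eqOn_open_of_ae_eq h2 hR.opn (by fun_prop) continuousOn_const
  obtain ⟨y, hy⟩ := hR.ne
  have h4 : ∀ᶠ t in nhds (0 : ℝ), y + t • n ∈ R := by
    have hc : Continuous fun t : ℝ => y + t • n := by fun_prop
    exact hc.continuousAt.eventually_mem (hR.opn.mem_nhds (by simpa using hy))
  obtain ⟨t, ht, ht0⟩ := (h4.filter_mono nhdsWithin_le_nhds).and
    (self_mem_nhdsWithin (a := (0 : ℝ)) (s := {0}ᶜ)) |>.exists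
  have h5 := (h3 ht).trans (h3 hy).symm
  simp only [inner_add_right, inner_smul_right, add_eq_left, mul_eq_zero] at h5
  exact inner_self_eq_zero.1 (h5.resolve_left ht0)

end IsoAux

theorem Body.exists_iso (hR : Body R) : ∃ L, Iso R L := by
  have := hR.prob
  have hB : ∀ n, (covarianceBilin (mu R)).toBilinForm n n = Var[fun y => ⟪n, y⟫; mu R] :=
    fun n => covarianceBilin_self (IsoAux.memLp_id hR) n
  obtain ⟨f, h1, h2⟩ := IsoAux.exists_frame (covarianceBilin (mu R)).toBilinForm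
    ⟨covarianceBilin_comm⟩ fun n hn => by rw [hB]; exact IsoAux.var_pos hR hn
  have hsig : ∀ a : E d, sig R (∑ i, a i • f i) = ‖a‖ := by
    intro a
    rw [sig, ← hB, h1, Real.sqrt_sq (norm_nonneg _)]
  let L : E d →L[ℝ] E d := ∑ i, (innerSL ℝ (f i)).smulRight (EuclideanSpace.single i (1 : ℝ))
  have hL : ∀ a x : E d, ⟪∑ i, a i • f i, x⟫ = ⟪a, L x⟫ := by
    intro a x
    simp only [L, _root_.sum_apply, ContinuousLinearMap.smulRight_apply,
      innerSL_apply_apply, sum_inner, inner_sum, real_inner_smul_left, real_inner_smul_right,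
      EuclideanSpace.inner_single_right]
    refine Finset.sum_congr rfl fun i _ => ?_
    simp [mul_comm]
  refine ⟨L, fun n x => ?_, fun φ => ⟨_, (hsig φ).le, hL φ⟩⟩
  obtain ⟨a, rfl⟩ := h2 n
  rw [hL, hsig]
  exact abs_real_inner_le_norm _ _

end Pool.Agent.Lib.MP_bc94b4_co.Ac
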