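import Pool.Agent.Lib.MP_bc94b4_co.Ac.BM

/-!
Uniform integrability of squares of affine functions on a convex body.
-/

namespace Pool.Agent.Lib.MP_bc94b4_co.Ac

open MeasureTheory ProbabilityTheory Set
open scoped RealInnerProductSpace ENNReal

variable {d : ℕ} {R : Set (E d)} {S : Finset (E d)} {L : E d →L[ℝ] E d} {ν : Measure (E d)}

namespace UI

lemma bound (hR : Body R) (n : E d) (m : ℝ) : ∃ M : ℝ, ∀ y ∈ R, |⟪n, y⟫ - m| ≤ M := by
  obtain ⟨C, hC⟩ := hR.bdd.exists_norm_le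
  refine ⟨‖n‖ * C + |m|, fun y hy => (abs_sub _ _).trans ?_⟩
  have h1 := abs_real_inner_le_norm n y
  have h2 := mul_le_mul_of_nonneg_left (hC y hy) (norm_nonneg n)
  linarith

lemma meas_lt (n : E d) (m c : ℝ) : MeasurableSet {y : E d | c < ⟪n, y⟫ - m} :=
  (isOpen_lt continuous_const (by fun_prop)).measurableSet

lemma meas_abs (n : E d) (m c : ℝ) : MeasurableSet {y : E d | c < |⟪n, y⟫ - m|} :=
  (isOpen_lt continuous_const (by fun_prop)).measurableSet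

lemma pointwise {x z : ℝ} (j : ℕ) (hz : |z| ≤ (25 + 2 * j) * x) :
    z ^ 2 ≤ (25 * x) ^ 2 + ∑ i ∈ Finset.range j,
      ((27 + 2 * i) * x) ^ 2 * if (25 + 2 * (i : ℝ)) * x < |z| then 1 else 0 := by
  induction j with
  | zero =>
    simp only [Nat.cast_zero, mul_zero, add_zero] at hz
    rw [Finset.sum_range_zero, add_zero, ← sq_abs z]
    exact pow_le_pow_left₀ (abs_nonneg z) hz 2
  | succ j ih =>
    rw [Finset.sum_range_succ]
    by_cases h : (25 + 2 * (j : ℝ)) * x < |z|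
    · rw [if_pos h, mul_one]
      have h1 : z ^ 2 ≤ ((27 + 2 * j) * x) ^ 2 := by
        rw [← sq_abs z]
        refine pow_le_pow_left₀ (abs_nonneg z) (hz.trans (le_of_eq ?_)) 2
        push_cast
        ring
      have h2 : 0 ≤ ∑ i ∈ Finset.range j,
          ((27 + 2 * i) * x) ^ 2 * if (25 + 2 * (i : ℝ)) * x < |z| then (1 : ℝ) else 0 :=
        Finset.sum_nonneg fun i _ => mul_nonneg (sq_nonneg _) (by split_ifs <;> norm_num)
      linarith [sq_nonneg (25 * x)]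
    · rw [if_neg h, mul_zero, add_zero]
      exact ih (not_lt.1 h)

lemma term_le (i : ℕ) : (27 + 2 * (i : ℝ)) ^ 2 * (1 / 15) ^ (13 + i) ≤ 1 / 512 * (1 / 2) ^ i := by
  induction i with
  | zero => norm_num
  | succ i ih =>
    have h0 : (0 : ℝ) ≤ i := Nat.cast_nonneg i
    have h1 : (27 + 2 * ((i : ℝ) + 1)) ^ 2 * (1 / 15) ≤ (27 + 2 * (i : ℝ)) ^ 2 * (1 / 2) := by
      nlinarith
    have h2 : (0 : ℝ) ≤ (1 / 15) ^ (13 + i) := by positivity
    rw [← add_assoc, pow_succ (1 / 15 : ℝ), pow_succ (1 / 2 : ℝ)]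
    push_cast
    nlinarith [mul_le_mul_of_nonneg_left h1 h2]

lemma sum_le (j : ℕ) :
    ∑ i ∈ Finset.range j, (27 + 2 * (i : ℝ)) ^ 2 * (1 / 15) ^ (13 + i) ≤ 1 / 256 := by
  refine (Finset.sum_le_sum fun i _ => term_le i).trans ?_
  rw [← Finset.mul_sum]
  have := sum_geometric_two_le j
  linarith

end UI

lemma Body.int_sq (hR : Body R) (n : E d) (m : ℝ) :
    Integrable (fun y => (⟪n, y⟫ - m) ^ 2) (mu R) := by
  have := hR.prob
  obtain ⟨M, hM⟩ := UI.bound hR n m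
  refine Integrable.of_bound (Continuous.aestronglyMeasurable (by fun_prop)) (M ^ 2) ?_
  filter_upwards [hR.ae_mem] with y hy
  rw [Real.norm_eq_abs, abs_pow]
  exact pow_le_pow_left₀ (abs_nonneg _) (hM y hy) 2

namespace UI

lemma tail (hR : Body R) (n : E d) (m : ℝ) {x : ℝ} (hx : 0 < x)
    (hV : 16 * ∫ y, (⟪n, y⟫ - m) ^ 2 ∂mu R ≤ x ^ 2) (k : ℕ) :
    (mu R).real {y | (2 * (k : ℝ) - 1) * x < ⟪n, y⟫ - m} ≤ (1 / 15) ^ k := by
  have := hR.prob
  set f : ℕ → ℝ := fun k => (mu R).real {y | (2 * (k : ℝ) - 1) * x < ⟪n, y⟫ - m} with hf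
  have h0 : ∀ k, 0 ≤ f k := fun k => measureReal_nonneg
  have hM : (mu R).real {y | x ^ 2 ≤ (⟪n, y⟫ - m) ^ 2} ≤ 1 / 16 := by
    have h1 := mul_meas_ge_le_integral_of_nonneg
      (Filter.Eventually.of_forall fun y => sq_nonneg (⟪n, y⟫ - m)) (hR.int_sq n m) (x ^ 2)
    have h2 : 0 < x ^ 2 := by positivity
    by_contra hc
    nlinarith [mul_lt_mul_of_pos_left (not_le.1 hc) h2]
  have h1 : f 1 ≤ 1 / 16 := by
    refine (measureReal_mono fun y hy => ?_).trans hM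
    have h2 : (2 * ((1 : ℕ) : ℝ) - 1) * x < ⟪n, y⟫ - m := hy
    change x ^ 2 ≤ (⟪n, y⟫ - m) ^ 2
    push_cast at h2
    nlinarith
  have h2 : 15 / 16 ≤ f 0 := by
    have h3 := probReal_compl_eq_one_sub (μ := mu R) (meas_lt n m ((2 * ((0 : ℕ) : ℝ) - 1) * x))
    have h4 : (mu R).real {y : E d | (2 * ((0 : ℕ) : ℝ) - 1) * x < ⟪n, y⟫ - m}ᶜ ≤ 1 / 16 := by
      refine (measureReal_mono fun y hy => ?_).trans hM
      have h2 : ¬ (2 * ((0 : ℕ) : ℝ) - 1) * x < ⟪n, y⟫ - m := hy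
      change x ^ 2 ≤ (⟪n, y⟫ - m) ^ 2
      push_cast at h2
      nlinarith
    rw [h3, sub_le_comm] at h4
    exact le_of_eq_of_le (by norm_num) h4
  have h3 : ∀ k, f k * f (k + 2) ≤ f (k + 1) ^ 2 := fun k =>
    hR.bm (meas_lt n m _) (meas_lt n m _) (meas_lt n m _) fun a ha _ b hb _ => by
      have ha' : (2 * (k : ℝ) - 1) * x < ⟪n, a⟫ - m := ha
      have hb' : (2 * ((k + 2 : ℕ) : ℝ) - 1) * x < ⟪n, b⟫ - m := hb
      change (2 * ((k + 1 : ℕ) : ℝ) - 1) * x < ⟪n, (2 : ℝ)⁻¹ • (a + b)⟫ - m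
      rw [real_inner_smul_right, inner_add_right]
      push_cast at hb' ⊢
      linarith
  have h4 : ∀ k, f (k + 1) ≤ f k := fun k => by
    refine measureReal_mono fun y hy => ?_
    have hy' : (2 * ((k + 1 : ℕ) : ℝ) - 1) * x < ⟪n, y⟫ - m := hy
    change (2 * (k : ℝ) - 1) * x < ⟪n, y⟫ - m
    push_cast at hy'
    linarith
  have h5 : ∀ k, f (k + 1) ≤ f k * (1 / 15) := fun k => by
    induction k with
    | zero => linarith
    | succ k ih =>
      rcases (h0 k).eq_or_lt with h | h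
      · linarith [h4 k, h4 (k + 1), h0 (k + 1)]
      · refine le_of_mul_le_mul_left ((h3 k).trans ?_) h
        nlinarith [mul_le_mul_of_nonneg_left ih (h0 (k + 1))]
  change f k ≤ _
  induction k with
  | zero => exact measureReal_le_one.trans (pow_zero _).ge
  | succ k ih =>
    rw [pow_succ]
    linarith [h5 k]

lemma tail_abs (hR : Body R) (n : E d) (m : ℝ) {x : ℝ} (hx : 0 < x)
    (hV : 16 * ∫ y, (⟪n, y⟫ - m) ^ 2 ∂mu R ≤ x ^ 2) (i : ℕ) :
    (mu R).real {y | (25 + 2 * (i : ℝ)) * x < |⟪n, y⟫ - m|} ≤ 2 * (1 / 15) ^ (13 + i) := by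
  have := hR.prob
  have h1 := tail hR n m hx hV (13 + i)
  have h2 := tail hR (-n) (-m) hx (by
    refine le_of_eq_of_le ?_ hV
    congr 2
    funext y
    rw [inner_neg_left]
    ring) (13 + i)
  have h3 : {y : E d | (25 + 2 * (i : ℝ)) * x < |⟪n, y⟫ - m|} ⊆
      {y | (2 * ((13 + i : ℕ) : ℝ) - 1) * x < ⟪n, y⟫ - m} ∪
        {y | (2 * ((13 + i : ℕ) : ℝ) - 1) * x < ⟪-n, y⟫ - -m} := fun y hy => by
    have hy' : (25 + 2 * (i : ℝ)) * x < |⟪n, y⟫ - m| := hy
    rcases lt_abs.1 hy' with h | h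
    · left
      change (2 * ((13 + i : ℕ) : ℝ) - 1) * x < ⟪n, y⟫ - m
      push_cast
      linarith
    · right
      change (2 * ((13 + i : ℕ) : ℝ) - 1) * x < ⟪-n, y⟫ - -m
      rw [inner_neg_left]
      push_cast
      linarith
  linarith [(measureReal_mono h3 (μ := mu R)).trans (measureReal_union_le _ _)]

end UI

theorem Body.ui (hR : Body R) (n : E d) (m : ℝ) {G : Set (E d)} (hG : MeasurableSet G)
    (hs : (mu R).real G ≤ 1 / 80000) :
    ∫ y in G, (⟪n, y⟫ - m) ^ 2 ∂mu R ≤ 1 / 4 * ∫ y, (⟪n, y⟫ - m) ^ 2 ∂mu R := by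
  have := hR.prob
  set V := ∫ y, (⟪n, y⟫ - m) ^ 2 ∂mu R with hV
  have hV0 : 0 ≤ V := integral_nonneg fun y => sq_nonneg _
  rcases hV0.eq_or_lt with h | h
  · have h1 : ∫ y in G, (⟪n, y⟫ - m) ^ 2 ∂mu R ≤ V :=
      setIntegral_le_integral (hR.int_sq n m) (Filter.Eventually.of_forall fun y => sq_nonneg _)
    linarith
  obtain ⟨x, hx, hxV⟩ : ∃ x : ℝ, 0 < x ∧ x ^ 2 = 16 * V :=
    ⟨√(16 * V), Real.sqrt_pos.2 (by positivity), Real.sq_sqrt (by positivity)⟩
  obtain ⟨M, hM⟩ := UI.bound hR n m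
  obtain ⟨j, hj⟩ := exists_nat_ge (M / x)
  rw [div_le_iff₀ hx] at hj
  let B : ℕ → Set (E d) := fun i => {y | (25 + 2 * (i : ℝ)) * x < |⟪n, y⟫ - m|}
  have hB : ∀ i, MeasurableSet (B i) := fun i => UI.meas_abs n m _
  have hI : ∀ i : ℕ, Integrable (fun y => ((27 + 2 * (i : ℝ)) * x) ^ 2 * (B i).indicator 1 y)
      ((mu R).restrict G) := fun i =>
    ((integrable_const (1 : ℝ)).indicator (hB i)).const_mul _
  have h1 : ∫ y in G, (⟪n, y⟫ - m) ^ 2 ∂mu R ≤ ∫ y in G, ((25 * x) ^ 2 +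
      ∑ i ∈ Finset.range j, ((27 + 2 * (i : ℝ)) * x) ^ 2 * (B i).indicator 1 y) ∂mu R := by
    refine integral_mono_ae (hR.int_sq n m).integrableOn
      ((integrable_const _).add (integrable_finsetSum _ fun i _ => hI i)) ?_
    filter_upwards [ae_restrict_of_ae hR.ae_mem] with y hy
    have h2 : (0 : ℝ) ≤ j := Nat.cast_nonneg j
    refine (UI.pointwise (x := x) j ((hM y hy).trans (by nlinarith))).trans (le_of_eq ?_)
    refine congrArg _ (Finset.sum_congr rfl fun i _ => ?_)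
    by_cases hy' : (25 + 2 * (i : ℝ)) * x < |⟪n, y⟫ - m|
    · rw [indicator_of_mem (s := B i) hy', if_pos hy']
      rfl
    · rw [indicator_of_notMem (s := B i) hy', if_neg hy']
  rw [integral_add (integrable_const _) (integrable_finsetSum _ fun i _ => hI i),
    integral_finsetSum _ fun i _ => hI i, setIntegral_const, smul_eq_mul] at h1
  have h2 : ∑ i ∈ Finset.range j, ∫ y in G, ((27 + 2 * (i : ℝ)) * x) ^ 2 * (B i).indicator 1 y ∂mu R
      ≤ ∑ i ∈ Finset.range j, 2 * x ^ 2 * ((27 + 2 * (i : ℝ)) ^ 2 * (1 / 15) ^ (13 + i)) := by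
    refine Finset.sum_le_sum fun i _ => ?_
    rw [integral_const_mul, integral_indicator_one (hB i)]
    have h3 : ((mu R).restrict G).real (B i) ≤ 2 * (1 / 15) ^ (13 + i) := by
      rw [measureReal_restrict_apply (hB i)]
      exact (measureReal_mono inter_subset_left).trans (UI.tail_abs hR n m hx hxV.ge i)
    refine (mul_le_mul_of_nonneg_left h3 (sq_nonneg _)).trans (le_of_eq ?_)
    ring
  rw [← Finset.mul_sum] at h2
  have h3 := mul_le_mul_of_nonneg_left (UI.sum_le j) (by positivity : (0 : ℝ) ≤ 2 * x ^ 2)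
  have h4 := mul_le_mul_of_nonneg_right hs (sq_nonneg (25 * x))
  nlinarith

end Pool.Agent.Lib.MP_bc94b4_co.Ac
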