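import Pool.Agent.Lib.MP_bc94b4_co.Ac.Tile
import Pool.Agent.Lib.MP_bc94b4_co.Ac.UI

/-!
Spread of the points in every direction.
-/

namespace Pool.Agent.Lib.MP_bc94b4_co.Ac

open MeasureTheory ProbabilityTheory Set
open scoped RealInnerProductSpace ENNReal

variable {d : ℕ} {R : Set (E d)} {S : Finset (E d)} {L : E d →L[ℝ] E d} {ν : Measure (E d)}

namespace Var

lemma meas (n : E d) (μ : Measure (E d)) : AEStronglyMeasurable (fun y : E d => ⟪n, y⟫) μ :=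
  (continuous_const.inner continuous_id).aestronglyMeasurable

lemma var_le (hR : Body R) (n : E d) (m : ℝ) :
    Var[fun y => ⟪n, y⟫; mu R] ≤ ∫ y, (⟪n, y⟫ - m) ^ 2 ∂mu R := by
  have := hR.prob
  rw [← variance_sub_const (meas n _) m]
  exact variance_le_expectation_sq ((meas n _).sub aestronglyMeasurable_const)

lemma mid (n a y : E d) : ⟪n, (2 : ℝ)⁻¹ • (a + y)⟫ = 2⁻¹ * (⟪n, a⟫ + ⟪n, y⟫) := by
  rw [real_inner_smul_right, inner_add_right]

lemma int_mid (hR : Body R) (n a : E d) (m : ℝ) :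
    Integrable (fun y => (⟪n, (2 : ℝ)⁻¹ • (a + y)⟫ - m) ^ 2) (mu R) := by
  refine ((hR.int_sq n (2 * m - ⟪n, a⟫)).const_mul (1 / 4)).congr (ae_of_all _ fun y => ?_)
  dsimp only
  rw [mid]
  ring

lemma sum_le (hR : Body R) (h : Til S R) (n : E d) (m : ℝ) {T : Finset (E d)} (hT : T ⊆ S) :
    ∑ a ∈ T, ∫ y, (⟪n, (2 : ℝ)⁻¹ • (a + y)⟫ - m) ^ 2 ∂mu R ≤
      2 ^ d * ∫ y, (⟪n, y⟫ - m) ^ 2 ∂mu R := by
  rw [h.sum_int hR hT (hR.int_sq n m)]
  exact mul_le_mul_of_nonneg_left (setIntegral_le_integral (hR.int_sq n m)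
    (ae_of_all _ fun y => sq_nonneg _)) (by positivity)

end Var

lemma Body.sig_le (hR : Body R) (n : E d) (m : ℝ) (h : ∀ x ∈ R, |⟪n, x⟫ - m| ≤ 1) :
    sig R n ≤ 1 := by
  have := hR.prob
  refine Real.sqrt_le_one.2 ((Var.var_le hR n m).trans ?_)
  have h1 := integral_mono_ae (hR.int_sq n m) (integrable_const (1 : ℝ))
    (hR.ae_mem.mono fun y hy => (sq_le_one_iff_abs_le_one _).2 (h y hy))
  simpa using h1

theorem Til.match_le (hR : Body R) (h : Til S R) (n : E d) {A : Finset (E d)} (hA : A ⊆ S)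
    {b : E d → E d} (hb : ∀ a ∈ A, b a ∈ S) (hi : Set.InjOn b A) :
    ∑ a ∈ A, ⟪n, b a - a⟫ ^ 2 ≤ 16 * 2 ^ d * sig R n ^ 2 := by
  classical
  have := hR.prob
  obtain ⟨m, hm⟩ : ∃ m : ℝ, sig R n ^ 2 = ∫ y, (⟪n, y⟫ - m) ^ 2 ∂mu R :=
    ⟨_, (Real.sq_sqrt (variance_nonneg _ _)).trans
      (variance_eq_integral (Var.meas n _).aemeasurable)⟩
  have h1 : ∀ a c : E d, ⟪n, c - a⟫ ^ 2 ≤
      8 * ∫ y, (⟪n, (2 : ℝ)⁻¹ • (c + y)⟫ - m) ^ 2 ∂mu R +
        8 * ∫ y, (⟪n, (2 : ℝ)⁻¹ • (a + y)⟫ - m) ^ 2 ∂mu R := fun a c => by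
    have h2 := integral_mono (integrable_const (⟪n, c - a⟫ ^ 2))
      (((Var.int_mid hR n c m).const_mul 8).add ((Var.int_mid hR n a m).const_mul 8)) fun y => by
        simp only [Pi.add_apply]
        rw [Var.mid, Var.mid, inner_sub_right]
        nlinarith [sq_nonneg (⟪n, c⟫ + ⟪n, a⟫ + 2 * ⟪n, y⟫ - 4 * m)]
    rw [integral_add' ((Var.int_mid hR n c m).const_mul 8) ((Var.int_mid hR n a m).const_mul 8),
      integral_const_mul, integral_const_mul] at h2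
    simpa only [integral_const, probReal_univ, one_smul] using h2
  have h2 := Var.sum_le hR h n m hA
  have h3 := Var.sum_le hR h n m (T := A.image b) fun c hc => by
    obtain ⟨a, ha, rfl⟩ := Finset.mem_image.1 hc
    exact hb a ha
  rw [Finset.sum_image hi] at h3
  refine (Finset.sum_le_sum fun a _ => h1 a (b a)).trans ?_
  rw [Finset.sum_add_distrib, ← Finset.mul_sum, ← Finset.mul_sum, hm]
  linarith

theorem Til.spread (hR : Body R) (h : Til S R) (n : E d) {T : Finset (E d)} (hT : T ⊆ S)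
    (hc : (1 - 1 / 80000) * 2 ^ d ≤ (T.card : ℝ)) {m l : ℝ} (hl : ∀ s ∈ T, |⟪n, s⟫ - m| ≤ l) :
    sig R n ≤ 2 * l := by
  have := hR.prob
  have h2 : (0 : ℝ) < 2 ^ d := by positivity
  have hl0 : 0 ≤ l := by
    have h3 : (0 : ℝ) < T.card := lt_of_lt_of_le (by positivity) hc
    obtain ⟨s, hs⟩ := Finset.card_pos.1 (Nat.cast_pos.1 h3)
    exact (abs_nonneg _).trans (hl s hs)
  have hU : MeasurableSet (⋃ a ∈ T, tile R a) :=
    Finset.measurableSet_biUnion _ fun a _ => hR.meas_tile a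
  have h3 := h.union_real hR hT
  have h4 := hR.ui n m hU.compl (by
    rw [probReal_compl_eq_one_sub hU]
    nlinarith)
  have h5 := integral_add_compl hU (hR.int_sq n m)
  have h6 := h.sum_int hR hT (hR.int_sq n m)
  have hV : 0 ≤ ∫ y, (⟪n, y⟫ - m) ^ 2 ∂mu R := integral_nonneg fun y => sq_nonneg _
  have h7 : ∀ a ∈ T, ∫ y, (⟪n, (2 : ℝ)⁻¹ • (a + y)⟫ - m) ^ 2 ∂mu R ≤
      l ^ 2 / 2 + 1 / 2 * ∫ y, (⟪n, y⟫ - m) ^ 2 ∂mu R := fun a ha => by
    have h8 : (⟪n, a⟫ - m) ^ 2 ≤ l ^ 2 := sq_le_sq' (abs_le.1 (hl a ha)).1 (abs_le.1 (hl a ha)).2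
    have h9 := integral_mono (Var.int_mid hR n a m)
      ((integrable_const (l ^ 2 / 2)).add ((hR.int_sq n m).const_mul (1 / 2))) fun y => by
        simp only [Pi.add_apply]
        rw [Var.mid]
        nlinarith [sq_nonneg (⟪n, a⟫ - ⟪n, y⟫)]
    rw [integral_add' (integrable_const _) ((hR.int_sq n m).const_mul (1 / 2)),
      integral_const_mul] at h9
    simpa only [integral_const, probReal_univ, one_smul] using h9
  have h8 := Finset.sum_le_card_nsmul _ _ _ h7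
  have h9 : (T.card : ℝ) ≤ 2 ^ d := (Nat.cast_le.2 (Finset.card_le_card hT)).trans (h.card_le hR)
  rw [h6, nsmul_eq_mul] at h8
  have h10 := le_of_mul_le_mul_left (h8.trans (mul_le_mul_of_nonneg_right h9 (by positivity))) h2
  refine Real.sqrt_le_iff.2 ⟨by positivity, (Var.var_le hR n m).trans ?_⟩
  nlinarith [sq_nonneg l]

end Pool.Agent.Lib.MP_bc94b4_co.Ac
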