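import Pool.Agent.Lib.MP_bc94b4_co.Ac.Bad
import Pool.Agent.Lib.MP_bc94b4_co.Ac.Comb
import Pool.Agent.Lib.MP_bc94b4_co.Ac.Gauss
import Pool.Agent.Lib.MP_bc94b4_co.Ac.Iso
import Pool.Agent.Lib.MP_bc94b4_co.Ac.Var

/-!
Acute sets have at most (1 - c) 2 ^ d points.
-/

namespace Pool.Agent.Lib.MP_bc94b4_co.Ac

open MeasureTheory ProbabilityTheory Set
open scoped RealInnerProductSpace ENNReal

variable {d : ℕ} {R : Set (E d)} {S : Finset (E d)} {L : E d →L[ℝ] E d} {ν : Measure (E d)}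

/-- all angles are acute -/
def Acute (S : Finset (E d)) : Prop :=
  ∀ a ∈ S, ∀ b ∈ S, ∀ c ∈ S, a ≠ b → a ≠ c → b ≠ c → 0 < ⟪b - a, c - a⟫

/-- `R` lies in the open slabs -/
def Slab (S : Finset (E d)) (R : Set (E d)) : Prop :=
  ∀ a ∈ S, ∀ b ∈ S, a ≠ b → ∀ x ∈ R, 0 < ⟪b - a, x - a⟫

lemma Acute.nonneg (h : Acute S) {a b c : E d} (ha : a ∈ S) (hb : b ∈ S) (hc : c ∈ S) :
    0 ≤ ⟪b - a, c - a⟫ := by
  by_cases h1 : a = b
  · simp [h1]
  by_cases h2 : a = c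
  · simp [h2]
  by_cases h3 : b = c
  · rw [h3]; exact real_inner_self_nonneg
  exact (h a ha b hb c hc h1 h2 h3).le

lemma Slab.lt (h : Slab S R) {a b x : E d} (ha : a ∈ S) (hb : b ∈ S) (hab : a ≠ b) (hx : x ∈ R) :
    ⟪b - a, x⟫ < ⟪b - a, b⟫ := by
  have := h b hb a ha hab.symm x hx
  rw [← neg_sub, inner_neg_left, inner_sub_right] at this
  linarith

lemma Slab.gt (h : Slab S R) {a b x : E d} (ha : a ∈ S) (hb : b ∈ S) (hab : a ≠ b) (hx : x ∈ R) :
    ⟪b - a, a⟫ < ⟪b - a, x⟫ := by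
  have := h a ha b hb hab x hx
  rw [inner_sub_right] at this
  linarith

theorem exists_body (h : Acute S) (hne : S.Nonempty) : ∃ R, Body R ∧ Til S R ∧ Slab S R := by
  obtain ⟨r, hr⟩ := (S.finite_toSet.isBounded).subset_ball (0 : E d)
  set Q : Set (E d) := ⋂ a ∈ S, ⋂ b ∈ S, ⋂ _ : a ≠ b, {x | 0 < ⟪b - a, x - a⟫} with hQ
  have mem : ∀ x, x ∈ Q ↔ ∀ a ∈ S, ∀ b ∈ S, a ≠ b → 0 < ⟪b - a, x - a⟫ := fun x => by
    simp only [hQ, mem_iInter, mem_ofPred_eq]
  have hslab : Slab S (Q ∩ Metric.ball 0 r) := fun a ha b hb hab x hx =>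
    (mem x).1 hx.1 a ha b hb hab
  have hcard : (0 : ℝ) < S.card := by exact_mod_cast hne.card_pos
  refine ⟨Q ∩ Metric.ball 0 r, ⟨?_, ?_, ?_, ?_⟩, ⟨?_, ?_⟩, hslab⟩
  · refine IsOpen.inter ?_ Metric.isOpen_ball
    refine isOpen_biInter_finset fun a _ => isOpen_biInter_finset fun b _ =>
      isOpen_iInter_of_finite fun _ => isOpen_lt continuous_const (by fun_prop)
  · refine Convex.inter ?_ (convex_ball _ _)
    intro x hx y hy s t hs ht hst
    rw [mem] at hx hy ⊢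
    intro a ha b hb hab
    have e : s • x + t • y - a = s • (x - a) + t • (y - a) := by
      have : a = s • a + t • a := by rw [← add_smul, hst, one_smul]
      conv_lhs => rw [this]
      module
    rw [e, inner_add_right, inner_smul_right, inner_smul_right]
    have h1 := hx a ha b hb hab
    have h2 := hy a ha b hb hab
    rcases hs.eq_or_lt with h0 | h0
    · have : t = 1 := by linarith
      rw [← h0, this]; linarith
    · nlinarith [mul_pos h0 h1, mul_nonneg ht h2.le]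
  · exact Metric.isBounded_ball.subset inter_subset_right
  · refine ⟨∑ s ∈ S, (S.card : ℝ)⁻¹ • s, (mem _).2 fun a ha b hb hab => ?_, ?_⟩
    · have e : ∑ s ∈ S, (S.card : ℝ)⁻¹ • s - a = ∑ s ∈ S, (S.card : ℝ)⁻¹ • (s - a) := by
        simp only [smul_sub, Finset.sum_sub_distrib, Finset.sum_const]
        rw [← Nat.cast_smul_eq_nsmul ℝ, smul_smul, mul_inv_cancel₀ hcard.ne', one_smul]
      rw [e, inner_sum]
      refine Finset.sum_pos' (fun s hs => ?_) ⟨b, hb, ?_⟩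
      · rw [inner_smul_right]
        exact mul_nonneg (by positivity) (h.nonneg ha hb hs)
      · rw [inner_smul_right]
        exact mul_pos (by positivity) (real_inner_self_pos.2 (sub_ne_zero.2 hab.symm))
    · refine (convex_ball (0 : E d) r).sum_mem (fun _ _ => by positivity) ?_ fun s hs => hr hs
      rw [Finset.sum_const, nsmul_eq_mul, mul_inv_cancel₀ hcard.ne']
  · intro s hs y hy
    refine ⟨(mem _).2 fun a ha b hb hab => ?_, ?_⟩
    · have e : (2 : ℝ)⁻¹ • (s + y) - a = (2 : ℝ)⁻¹ • ((s - a) + (y - a)) := by module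
      rw [e, inner_smul_right, inner_add_right]
      have h1 := h.nonneg ha hb hs
      have h2 := (mem y).1 hy.1 a ha b hb hab
      positivity
    · have hc : Convex ℝ (Metric.ball (0 : E d) r) := convex_ball _ _
      have := hc (hr hs) hy.2 (a := 2⁻¹) (b := 2⁻¹) (by norm_num) (by norm_num) (by norm_num)
      rwa [← smul_add] at this
  · intro a ha b hb hab y hy y' hy' e
    have h1 := hslab.lt ha hb hab hy
    have h2 := hslab.gt ha hb hab hy'
    have h3 := congrArg (fun x => ⟪b - a, x⟫) e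
    simp only [inner_add_right] at h3
    linarith

lemma prod_real {μ : Measure (E d)} [IsProbabilityMeasure μ] [IsProbabilityMeasure ν]
    {T : Set (E d × E d)} (hT : MeasurableSet T) :
    (μ.prod ν).real T = ∫ w, μ.real {y | (y, w) ∈ T} ∂ν := by
  rw [Measure.real, Measure.prod_apply_symm hT, ← integral_toReal]
  · rfl
  · exact (measurable_measure_prodMk_right hT).aemeasurable
  · exact ae_of_all _ fun _ => measure_lt_top _ _

/-- the normalised difference -/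
noncomputable def un (L : E d →L[ℝ] E d) (a b : E d) : E d := ‖L (b - a)‖⁻¹ • (b - a)

lemma sig_one (hR : Body R) (hs : Slab S R) {a b : E d} (ha : a ∈ S) (hb : b ∈ S) (hab : a ≠ b) :
    sig R ((‖b - a‖ ^ 2)⁻¹ • (b - a)) ≤ 1 := by
  have hp : 0 < ‖b - a‖ ^ 2 := pow_pos (norm_pos_iff.2 (sub_ne_zero.2 hab.symm)) 2
  refine hR.sig_le _ ((‖b - a‖ ^ 2)⁻¹ * ⟪b - a, a⟫) fun x hx => ?_
  have h1 := hs.lt ha hb hab hx
  have h2 := hs.gt ha hb hab hx
  have h3 : ⟪b - a, b⟫ - ⟪b - a, a⟫ = ‖b - a‖ ^ 2 := by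
    rw [← inner_sub_right, real_inner_self_eq_norm_sq]
  rw [real_inner_smul_left, ← mul_sub, abs_of_nonneg (mul_nonneg (by positivity) (by linarith)),
    inv_mul_le_iff₀ hp]
  linarith

lemma L_pos (_ : Body R) (_ : Slab S R) (hL : Iso R L) {a b : E d} (_ : a ∈ S) (_ : b ∈ S)
    (hab : a ≠ b) : 0 < ‖L (b - a)‖ := by
  have hp : 0 < ‖b - a‖ ^ 2 := pow_pos (norm_pos_iff.2 (sub_ne_zero.2 hab.symm)) 2
  have h1 := hL.dual ((‖b - a‖ ^ 2)⁻¹ • (b - a)) (b - a)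
  rw [real_inner_smul_left, real_inner_self_eq_norm_sq, inv_mul_cancel₀ hp.ne', abs_one] at h1
  refine (norm_nonneg _).lt_of_ne fun h => ?_
  rw [← h, mul_zero] at h1
  linarith

lemma L_un (hR : Body R) (hs : Slab S R) (hL : Iso R L) {a b : E d} (ha : a ∈ S) (hb : b ∈ S)
    (hab : a ≠ b) : ‖L (un L a b)‖ = 1 := by
  have := L_pos hR hs hL ha hb hab
  rw [un, map_smul, norm_smul, norm_inv, norm_norm, inv_mul_cancel₀ this.ne']

lemma un_lt (hR : Body R) (hs : Slab S R) (hL : Iso R L) {a b x : E d} (ha : a ∈ S) (hb : b ∈ S)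
    (hab : a ≠ b) (hx : x ∈ R) : ⟪un L a b, x⟫ < ⟪un L a b, b⟫ := by
  have := L_pos hR hs hL ha hb hab
  rw [un, real_inner_smul_left, real_inner_smul_left]
  exact mul_lt_mul_of_pos_left (hs.lt ha hb hab hx) (by positivity)

lemma un_depth (hR : Body R) (hs : Slab S R) (hL : Iso R L) {a b y w : E d} {l : ℝ} (ha : a ∈ S)
    (hb : b ∈ S) (hab : a ≠ b) (hx : y + (2 : ℝ) • l • w - (b - a) ∈ R) :
    ⟪un L a b, b⟫ - ⟪un L a b, y⟫ ≤ 2 * l * ⟪un L a b, w⟫ := by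
  have h0 := L_pos hR hs hL ha hb hab
  have h1 := hs.gt ha hb hab hx
  rw [inner_sub_right, inner_add_right, inner_smul_right, inner_smul_right,
    inner_sub_right (b - a) b a] at h1
  rw [un, real_inner_smul_left, real_inner_smul_left, real_inner_smul_left, ← mul_sub,
    mul_left_comm]
  exact mul_le_mul_of_nonneg_left (by linarith) (by positivity)

/-- the main inequality -/
theorem main_ineq (hd : 2 ≤ d) (hac : Acute S) (hR : Body R) (hT : Til S R) (hs : Slab S R)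
    (hL : Iso R L) (hν : Gau L ν) {l s : ℝ} (hl : 0 ≤ l) (hs0 : 0 ≤ s) :
    ∃ β₁ β₂ : ℝ, 3 / 4 * β₁ ≤ 2 * ex R ν (4 * l * √(1 + s ^ 2)) - ex R ν (8 * l * s) ∧
      kap (1 / (4 * 10 ^ 8)) * β₂ ≤ 3 * ex R ν (4 * (8 * l * s) / (1 / (4 * 10 ^ 8))) ^ 2 ∧
      S.card * ex R ν (2 * l) - 2 ^ d * ex R ν l - (2 ^ d - S.card) ≤
        (1 / 2 - 2 / 10 ^ 6) * 2 ^ d * ex R ν (2 * l) + 2 ^ d * (β₁ + β₂) := by
  classical
  have := hR.prob
  have := hν.prob
  set θ : ℝ := 1 / (4 * 10 ^ 8) with hθ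
  have mR : ∀ a b : E d, MeasurableSet {p : E d × E d | p.1 + (2 : ℝ) • l • p.2 - (b - a) ∈ R} :=
    fun a b => hR.meas.preimage (by fun_prop)
  set Ta : E d → Set (E d × E d) := fun a =>
    ⋃ b ∈ S, ⋃ _ : b ≠ a, {p | p.1 + (2 : ℝ) • l • p.2 - (b - a) ∈ R} with hTa
  have mTa : ∀ a, MeasurableSet (Ta a) := fun a =>
    S.measurableSet_biUnion fun b _ => MeasurableSet.iUnion fun _ => mR a b
  have eTa : ∀ a p, p ∈ Ta a ↔ ∃ b ∈ S, b ≠ a ∧ p.1 + (2 : ℝ) • l • p.2 - (b - a) ∈ R :=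
    fun a p => by simp only [hTa, mem_iUnion, mem_ofPred_eq, exists_prop]
  set B₁ : Set (E d × E d) := ⋃ a ∈ S, ⋃ b ∈ S, ⋃ _ : a ≠ b,
    ({p | p.1 + (2 : ℝ) • l • p.2 - (b - a) ∈ R} ∩ {p | 4 * s < ⟪un L a b, p.2⟫}) with hB₁
  have mB₁ : MeasurableSet B₁ := S.measurableSet_biUnion fun a _ =>
    S.measurableSet_biUnion fun b _ => MeasurableSet.iUnion fun _ =>
      (mR a b).inter (isOpen_lt continuous_const (by fun_prop)).measurableSet
  have eB₁ : ∀ p, p ∈ B₁ ↔ ∃ a ∈ S, ∃ b ∈ S, a ≠ b ∧ p.1 + (2 : ℝ) • l • p.2 - (b - a) ∈ R ∧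
      4 * s < ⟪un L a b, p.2⟫ := fun p => by
    simp only [hB₁, mem_iUnion, mem_inter_iff, mem_ofPred_eq, exists_prop]
  set B₂ : Set (E d) := ⋃ a ∈ S, ⋃ b ∈ S, ⋃ a' ∈ S, ⋃ b' ∈ S,
    ⋃ _ : a ≠ b ∧ a' ≠ b' ∧ θ ≤ ‖L (un L a b) - L (un L a' b')‖,
      ({y | ⟪un L a b, b⟫ - ⟪un L a b, y⟫ ≤ 8 * l * s} ∩
        {y | ⟪un L a' b', b'⟫ - ⟪un L a' b', y⟫ ≤ 8 * l * s}) with hB₂
  have mB₂ : MeasurableSet B₂ := S.measurableSet_biUnion fun a _ =>
    S.measurableSet_biUnion fun b _ => S.measurableSet_biUnion fun a' _ =>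
      S.measurableSet_biUnion fun b' _ => MeasurableSet.iUnion fun _ =>
        (isClosed_le (by fun_prop) continuous_const).measurableSet.inter
          (isClosed_le (by fun_prop) continuous_const).measurableSet
  have eB₂ : ∀ y, y ∈ B₂ ↔ ∃ a ∈ S, ∃ b ∈ S, ∃ a' ∈ S, ∃ b' ∈ S,
      (a ≠ b ∧ a' ≠ b' ∧ θ ≤ ‖L (un L a b) - L (un L a' b')‖) ∧
        ⟪un L a b, b⟫ - ⟪un L a b, y⟫ ≤ 8 * l * s ∧
        ⟪un L a' b', b'⟫ - ⟪un L a' b', y⟫ ≤ 8 * l * s := fun y => by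
    simp only [hB₂, mem_iUnion, mem_inter_iff, mem_ofPred_eq, exists_prop]
  set X : Set (E d × E d) := {p | p.1 + (2 * l) • p.2 ∉ R} with hX
  have mX : MeasurableSet X := (hR.meas.preimage (by fun_prop)).compl
  have mB₂' : MeasurableSet (Prod.fst ⁻¹' B₂ : Set (E d × E d)) := mB₂.preimage measurable_fst
  refine ⟨((mu R).prod ν).real B₁, (mu R).real B₂, deep_le hR hν hl hs0 mB₁ fun p hp => ?_,
    angle_le hR hν (by positivity) (by positivity) mB₂ fun y hy => ?_, ?_⟩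
  · obtain ⟨a, ha, b, hb, hab, h1, h2⟩ := (eB₁ p).1 hp
    exact ⟨un L a b, ⟪un L a b, b⟫, L_un hR hs hL ha hb hab,
      fun x hx => un_lt hR hs hL ha hb hab hx, un_depth hR hs hL ha hb hab h1, h2⟩
  · obtain ⟨a, ha, b, hb, a', ha', b', hb', ⟨h1, h2, h3⟩, h4, h5⟩ := (eB₂ y).1 hy
    exact ⟨un L a b, _, un L a' b', _, L_un hR hs hL ha hb h1, L_un hR hs hL ha' hb' h2,
      fun x hx => un_lt hR hs hL ha hb h1 hx, fun x hx => un_lt hR hs hL ha' hb' h2 hx,
      h4, h5, h3⟩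
  have hN : (0 : ℝ) ≤ 2 ^ d := by positivity
  have point : ∀ p : E d × E d, p.1 ∈ R → ∑ a ∈ S, (Ta a).indicator (1 : E d × E d → ℝ) p ≤
      (1 / 2 - 2 / 10 ^ 6) * 2 ^ d * X.indicator 1 p +
        2 ^ d * (B₁.indicator 1 p + (Prod.fst ⁻¹' B₂).indicator 1 p) := by
    intro p hp
    have i0 : ∀ T : Set (E d × E d), 0 ≤ T.indicator (1 : E d × E d → ℝ) p := fun T =>
      indicator_nonneg (fun _ _ => zero_le_one) p
    have hcard : ∑ a ∈ S, (Ta a).indicator (1 : E d × E d → ℝ) p =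
        ((S.filter fun a => p ∈ Ta a).card : ℝ) := by
      rw [Finset.card_filter]
      push_cast
      exact Finset.sum_congr rfl fun a _ => by simp [indicator]
    have hle : ((S.filter fun a => p ∈ Ta a).card : ℝ) ≤ 2 ^ d :=
      le_trans (by exact_mod_cast Finset.card_filter_le _ _) (hT.card_le hR)
    rw [hcard]
    have k0 : (0 : ℝ) ≤ (1 / 2 - 2 / 10 ^ 6) * 2 ^ d := by positivity
    by_cases c1 : p ∈ B₁
    · rw [indicator_of_mem c1]
      have := mul_nonneg k0 (i0 X)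
      have := mul_nonneg hN (i0 (Prod.fst ⁻¹' B₂))
      simp only [Pi.one_apply]
      nlinarith
    by_cases c2 : p ∈ Prod.fst ⁻¹' B₂
    · rw [indicator_of_mem c2]
      have := mul_nonneg k0 (i0 X)
      have := mul_nonneg hN (i0 B₁)
      simp only [Pi.one_apply]
      nlinarith
    rw [indicator_of_notMem c1, indicator_of_notMem c2, add_zero, mul_zero, add_zero]
    by_cases c3 : p ∈ X
    swap
    · rw [indicator_of_notMem c3, mul_zero, Finset.filter_eq_empty_iff.2]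
      · simp
      · intro a ha hpa
        obtain ⟨b, hb, hba, h1⟩ := (eTa a p).1 hpa
        have h2 : p.1 + (2 * l) • p.2 ∈ R := not_not.1 c3
        refine hT.dis a ha b hb hba.symm _ h2 _ h1 ?_
        module
    rw [indicator_of_mem c3, Pi.one_apply, mul_one]
    have hex : ∀ a, ∃ b, p ∈ Ta a → b ∈ S ∧ b ≠ a ∧ p.1 + (2 : ℝ) • l • p.2 - (b - a) ∈ R := by
      intro a
      by_cases h : p ∈ Ta a
      · obtain ⟨b, hb⟩ := (eTa a p).1 h
        exact ⟨b, fun _ => hb⟩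
      · exact ⟨a, fun h' => absurd h' h⟩
    choose b hb using hex
    have hb' : ∀ a ∈ S.filter fun a => p ∈ Ta a, a ∈ S ∧ b a ∈ S ∧ b a ≠ a ∧
        p.1 + (2 : ℝ) • l • p.2 - (b a - a) ∈ R := fun a ha =>
      ⟨(Finset.mem_filter.1 ha).1, hb a (Finset.mem_filter.1 ha).2⟩
    have hinj : Set.InjOn b (S.filter fun a => p ∈ Ta a : Finset (E d)) := by
      intro a ha a' ha' e
      by_contra hne
      refine hT.dis a (hb' a ha).1 a' (hb' a' ha').1 hne _ (hb' a' ha').2.2.2 _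
        (hb' a ha).2.2.2 ?_
      rw [e]
      module
    have hdep : ∀ a ∈ S.filter fun a => p ∈ Ta a,
        ⟪un L a (b a), b a⟫ - ⟪un L a (b a), p.1⟫ ≤ 8 * l * s := by
      intro a ha
      obtain ⟨h1, h2, h3, h4⟩ := hb' a ha
      have h5 := un_depth hR hs hL h1 h2 h3.symm h4
      have h6 : ⟪un L a (b a), p.2⟫ ≤ 4 * s := by
        by_contra h
        exact c1 ((eB₁ p).2 ⟨a, h1, b a, h2, h3.symm, h4, not_le.1 h⟩)
      nlinarith
    refine (rigid hd (sig R) hac hL.dual hL.lift (fun n => Real.sqrt_nonneg _)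
      (fun a ha b hb hab => sig_one hR hs ha hb hab) (Finset.filter_subset _ _)
      (fun a ha => (hb' a ha).2.1) (fun a ha => (hb' a ha).2.2.1) hinj
      (fun n => hT.match_le hR n (Finset.filter_subset _ _) (fun a ha => (hb' a ha).2.1) hinj)
      (fun n T hTS hc m l hl => hT.spread hR n hTS hc hl) fun a ha a' ha' => ?_).le
    by_contra h
    refine c2 ((eB₂ p.1).2 ⟨a, (hb' a ha).1, b a, (hb' a ha).2.1, a', (hb' a' ha').1, b a',
      (hb' a' ha').2.1, ⟨(hb' a ha).2.2.1.symm, (hb' a' ha').2.2.1.symm, ?_⟩, hdep a ha,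
      hdep a' ha'⟩)
    rw [un, un, map_smul, map_smul]
    exact (not_le.1 h).le
  have ii : ∀ T : Set (E d × E d), MeasurableSet T →
      Integrable (T.indicator (1 : E d × E d → ℝ)) ((mu R).prod ν) := fun T hT =>
    (integrable_const 1).indicator hT
  have hae : ∀ᵐ p ∂(mu R).prod ν, p.1 ∈ R := Measure.quasiMeasurePreserving_fst.ae hR.ae_mem
  have hint := integral_mono_ae (integrable_finsetSum S fun a _ => ii _ (mTa a))
    (((ii _ mX).const_mul _).add (((ii _ mB₁).add (ii _ mB₂')).const_mul _))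
    (hae.mono fun p hp => point p hp)
  rw [integral_finsetSum S fun a _ => ii _ (mTa a)] at hint
  simp only [Pi.add_apply] at hint
  have iB : Integrable (fun p => B₁.indicator (1 : E d × E d → ℝ) p +
      (Prod.fst ⁻¹' B₂).indicator 1 p) ((mu R).prod ν) := (ii _ mB₁).add (ii _ mB₂')
  rw [integral_add ((ii _ mX).const_mul _) (iB.const_mul _),
    integral_const_mul, integral_const_mul, integral_add (ii _ mB₁) (ii _ mB₂'),
    integral_indicator_one mX, integral_indicator_one mB₁, integral_indicator_one mB₂',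
    (measurePreserving_fst (μ := mu R) (ν := ν)).measureReal_preimage mB₂.nullMeasurableSet,
    prod_real mX] at hint
  refine le_trans ?_ hint
  have ir : ∀ c : ℝ, Integrable (fun w => rho R (c • w)) ν := fun c =>
    Integrable.of_bound (hR.meas_rho.comp (by fun_prop)).aestronglyMeasurable 1
      (ae_of_all _ fun w => by
        rw [Real.norm_eq_abs, abs_of_nonneg (rho_nonneg _)]; exact hR.rho_le_one _)
  have iT : ∀ a, Integrable (fun w => (mu R).real {y | (y, w) ∈ Ta a}) ν := fun a =>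
    Integrable.of_bound
      (measurable_measure_prodMk_right (mTa a)).ennreal_toReal.aestronglyMeasurable 1
      (ae_of_all _ fun w => by
        rw [Real.norm_eq_abs, abs_of_nonneg measureReal_nonneg]; exact measureReal_le_one)
  have iD : Integrable (fun w => (S.card : ℝ) * rho R ((2 * l) • w) - 2 ^ d * rho R (l • w)) ν :=
    ((ir _).const_mul _).sub ((ir _).const_mul _)
  calc _ = ∫ w, (S.card * rho R ((2 * l) • w) - 2 ^ d * rho R (l • w) - (2 ^ d - S.card)) ∂ν := by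
        rw [integral_sub iD (integrable_const _),
          integral_sub ((ir _).const_mul _) ((ir _).const_mul _), integral_const_mul,
          integral_const_mul]
        simp [ex]
    _ ≤ ∫ w, ∑ a ∈ S, (mu R).real {y | (y, w) ∈ Ta a} ∂ν := by
        refine integral_mono (iD.sub (integrable_const _))
          (integrable_finsetSum S fun a _ => iT a) fun w => ?_
        have := hT.transfer hR (l • w)
        simp only [eTa]
        rwa [smul_smul 2 l w] at this ⊢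
    _ = _ := by
        rw [integral_finsetSum S fun a _ => iT a]
        exact Finset.sum_congr rfl fun a _ => by
          rw [integral_indicator_one (mTa a), prod_real (mTa a)]

lemma ar1 {b x y e : ℝ} (h1 : 3 / 4 * b ≤ 2 * x - y) (a4 : x ≤ (2 ^ 46 + 2) * e)
    (a3 : 2 ^ 47 * e - 2 * 4 ^ 47 * e ^ 2 ≤ y) (e0 : 0 < e) : b ≤ 6 * e + 2 ^ 96 * e ^ 2 := by
  have := sq_nonneg e
  linarith

lemma ar2 {b₁ b₂ x y e c K : ℝ} (key : (1 / 2 + 1 / 10 ^ 6) * x ≤ y + c + (b₁ + b₂))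
    (a1 : y ≤ 2 ^ 22 * e) (a2 : 2 ^ 23 * e - 2 * 4 ^ 23 * e ^ 2 ≤ x)
    (b1 : b₁ ≤ 6 * e + 2 ^ 96 * e ^ 2) (b2 : b₂ ≤ K * e ^ 2) (e0 : 0 < e) :
    2 * e ≤ c + (2 ^ 100 + K) * e ^ 2 := by
  have := sq_nonneg e
  rw [add_mul (2 ^ 100) K]
  linarith

theorem acute_bound : ∃ c : ℝ, 0 < c ∧ ∀ d : ℕ, 2 ≤ d → ∀ S : Finset (E d), Acute S →
    (S.card : ℝ) ≤ (1 - c) * 2 ^ d := by
  set κ : ℝ := kap (1 / (4 * 10 ^ 8)) with hκ
  have hκ0 : 0 < κ := kap_pos (by positivity)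
  set C : ℝ := 2 ^ 100 + 3 * (2 ^ 44 * (128 * 10 ^ 8)) ^ 2 / κ with hC
  have hC0 : 0 < C := by positivity
  set t : ℝ := min (p0 / 2) (1 / C) with ht
  have ht0 : 0 < t := lt_min (half_pos p0_pos) (by positivity)
  have ht1 : t < p0 := (min_le_left _ _).trans_lt (half_lt_self p0_pos)
  have ht2 : C * t ≤ 1 := by
    have := min_le_right (p0 / 2) (1 / C)
    rw [← ht, le_div_iff₀ hC0] at this
    linarith
  refine ⟨min (1 / 10 ^ 6) (t / 4), lt_min (by positivity) (by positivity), fun d hd S hac => ?_⟩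
  set c : ℝ := min (1 / 10 ^ 6) (t / 4) with hc
  have hc1 : c ≤ 1 / 10 ^ 6 := min_le_left _ _
  have hc2 : c ≤ t / 4 := min_le_right _ _
  by_contra hcon
  rw [not_le] at hcon
  have hN : (4 : ℝ) ≤ 2 ^ d := by
    calc (4 : ℝ) = 2 ^ 2 := by norm_num
      _ ≤ 2 ^ d := pow_le_pow_right₀ (by norm_num) hd
  have h2 : 1 < S.card := by
    have : (1 : ℝ) < S.card := by nlinarith
    exact_mod_cast this
  obtain ⟨a, ha, b, hb, hab⟩ := Finset.one_lt_card.1 h2
  obtain ⟨R, hR, hT, hs⟩ := exists_body hac ⟨a, ha⟩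
  obtain ⟨L, hL⟩ := hR.exists_iso
  obtain ⟨ν, hν⟩ := exists_gau L
  obtain ⟨τ, hτ, he1, he2⟩ := exists_scale hR hν (L_un hR hs hL ha hb hab) ht0 ht1
  obtain ⟨β₁, β₂, h1, h3, h4⟩ := main_ineq hd hac hR hT hs hL hν (l := 2 ^ 22 * τ) (s := 2 ^ 22)
    (by positivity) (by positivity)
  set e := ex R ν τ with he
  have e0 : 0 < e := by linarith
  have a1 : ex R ν (2 ^ 22 * τ) ≤ 2 ^ 22 * e := by
    have := ex_le hR hν hτ.le (l := 2 ^ 22 * τ) (by positivity) (2 ^ 22) (by norm_num)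
    refine this.trans (le_of_eq ?_)
    norm_num [he]
  have a2 := ex_ge hR hν hτ.le 23
  rw [show (2 : ℝ) ^ 23 * τ = 2 * (2 ^ 22 * τ) by ring, ← he] at a2
  have a3 := ex_ge hR hν hτ.le 47
  rw [show (2 : ℝ) ^ 47 * τ = 8 * (2 ^ 22 * τ) * 2 ^ 22 by ring, ← he] at a3
  have a4 : ex R ν (4 * (2 ^ 22 * τ) * √(1 + (2 ^ 22) ^ 2)) ≤ (2 ^ 46 + 2) * e := by
    have hq : √(1 + ((2 : ℝ) ^ 22) ^ 2) ≤ 2 ^ 22 + 1 / 2 ^ 23 :=
      Real.sqrt_le_iff.2 ⟨by positivity, by norm_num⟩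
    have := ex_le hR hν hτ.le (l := 4 * (2 ^ 22 * τ) * √(1 + (2 ^ 22) ^ 2)) (by positivity)
      (2 ^ 46 + 2) (by
        generalize √(1 + ((2 : ℝ) ^ 22) ^ 2) = q at hq ⊢
        push_cast
        nlinarith [mul_le_mul_of_nonneg_left hq hτ.le])
    refine this.trans (le_of_eq ?_)
    norm_num [he]
  have a5 : ex R ν (4 * (8 * (2 ^ 22 * τ) * 2 ^ 22) / (1 / (4 * 10 ^ 8))) ≤
      2 ^ 44 * (128 * 10 ^ 8) * e := by
    have := ex_le hR hν hτ.le (l := 4 * (8 * (2 ^ 22 * τ) * 2 ^ 22) / (1 / (4 * 10 ^ 8)))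
      (by positivity) (2 ^ 44 * (128 * 10 ^ 8)) (by push_cast; apply le_of_eq; ring)
    refine this.trans (le_of_eq ?_)
    norm_num [he]
  have b2 : β₂ ≤ 3 * (2 ^ 44 * (128 * 10 ^ 8)) ^ 2 / κ * e ^ 2 := by
    have := pow_le_pow_left₀ (ex_nonneg _) a5 2
    rw [div_mul_eq_mul_div, le_div_iff₀ hκ0]
    nlinarith
  have b1 : β₁ ≤ 6 * e + 2 ^ 96 * e ^ 2 := ar1 h1 a4 a3 e0
  have x0 : 0 ≤ ex R ν (2 * (2 ^ 22 * τ)) := ex_nonneg _
  have hN0 : (0 : ℝ) < 2 ^ d := by positivity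
  have key : (1 / 2 + 1 / 10 ^ 6) * ex R ν (2 * (2 ^ 22 * τ)) ≤
      ex R ν (2 ^ 22 * τ) + c + (β₁ + β₂) := by
    refine le_of_mul_le_mul_left ?_ hN0
    have : (1 - 1 / 10 ^ 6) * 2 ^ d * ex R ν (2 * (2 ^ 22 * τ)) ≤
        S.card * ex R ν (2 * (2 ^ 22 * τ)) :=
      mul_le_mul_of_nonneg_right (by nlinarith) x0
    nlinarith
  have fin : 2 * e ≤ c + C * e ^ 2 := ar2 key a1 a2 b1 b2 e0
  have : C * e ^ 2 ≤ e := by
    have : C * e ≤ 1 := (mul_le_mul_of_nonneg_left he2 hC0.le).trans ht2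
    nlinarith
  linarith

end Pool.Agent.Lib.MP_bc94b4_co.Ac
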