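import Pool.Agent.Lib.MP_bc94b4_co.Ac.Rho

/-!
Moments of the exit probability under Gaussian shifts.
-/

namespace Pool.Agent.Lib.MP_bc94b4_co.Ac

open MeasureTheory ProbabilityTheory Set
open scoped RealInnerProductSpace ENNReal

variable {d : ℕ} {R : Set (E d)} {S : Finset (E d)} {L : E d →L[ℝ] E d} {ν : Measure (E d)}

namespace Mom

lemma int_bdd {α : Type} [MeasurableSpace α] {μ : Measure α} [IsFiniteMeasure μ] {f : α → ℝ}
    (hf : Measurable f) (h0 : ∀ x, 0 ≤ f x) (h1 : ∀ x, f x ≤ 1) : Integrable f μ :=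
  Integrable.of_bound hf.aestronglyMeasurable 1 (Filter.Eventually.of_forall fun x => by
    rw [Real.norm_eq_abs, abs_of_nonneg (h0 x)]
    exact h1 x)

lemma meas_l (hR : Body R) (l : ℝ) : Measurable fun w : E d => rho R (l • w) :=
  hR.meas_rho.comp (measurable_const_smul l)

lemma int_l (hR : Body R) [IsFiniteMeasure ν] (l : ℝ) :
    Integrable (fun w : E d => rho R (l • w)) ν :=
  int_bdd (meas_l hR l) (fun _ => rho_nonneg _) fun _ => hR.rho_le_one _

lemma int_sq (hR : Body R) [IsFiniteMeasure ν] (l : ℝ) :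
    Integrable (fun w : E d => rho R (l • w) ^ 2) ν :=
  int_bdd ((meas_l hR l).pow_const 2) (fun _ => sq_nonneg _)
    fun _ => pow_le_one₀ (rho_nonneg _) (hR.rho_le_one _)

lemma rho_zero (hR : Body R) : rho R 0 = 0 := by
  have h : mu R {y | y + 0 ∉ R} = 0 := by
    simp only [add_zero]
    exact ae_iff.1 hR.ae_mem
  simp only [rho, Measure.real, h, ENNReal.toReal_zero]

lemma rho_nat (hR : Body R) (u : E d) (k : ℕ) : rho R ((k : ℝ) • u) ≤ k * rho R u := by
  induction k with
  | zero => simp [rho_zero hR]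
  | succ k ih =>
    have := hR.rho_add ((k : ℝ) • u) u
    push_cast
    rw [add_smul, one_smul]
    linarith

lemma diff_sq (hR : Body R) (x y : E d) :
    (rho R x - rho R y) ^ 2 ≤ rho R (x + y) * rho R (x - y) := by
  have a1 := hR.rho_add (x + y) (-y)
  have a2 := hR.rho_add (x + y) (-x)
  have a3 := hR.rho_add (x - y) y
  have a4 := hR.rho_add (-(x - y)) x
  rw [hR.rho_neg] at a1 a2 a4
  rw [show x + y + -y = x by abel] at a1
  rw [show x + y + -x = y by abel] at a2
  rw [show x - y + y = x by abel] at a3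
  rw [show -(x - y) + x = y by abel] at a4
  rw [← sq_abs, sq]
  exact mul_le_mul (abs_le.2 ⟨by linarith, by linarith⟩) (abs_le.2 ⟨by linarith, by linarith⟩)
    (abs_nonneg _) (rho_nonneg _)

lemma meas_out (hR : Body R) (z : E d) : MeasurableSet {y : E d | y + z ∉ R} :=
  (hR.meas.preimage (measurable_add_const z)).compl

lemma rho_lim (hR : Body R) (z : E d) {c : ℕ → ℝ} (hc : Filter.Tendsto c Filter.atTop (nhds 0)) :
    Filter.Tendsto (fun k => rho R (c k • z)) Filter.atTop (nhds 0) := by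
  have := hR.prob
  have h1 : Filter.Tendsto (fun k => mu R {y | y + c k • z ∉ R}) Filter.atTop
      (nhds (mu R ∅)) := by
    refine tendsto_measure_of_ae_tendsto_indicator_of_isFiniteMeasure Filter.atTop
      MeasurableSet.empty (fun k => meas_out hR _) ?_
    filter_upwards [hR.ae_mem] with y hy
    have h2 : Filter.Tendsto (fun k => y + c k • z) Filter.atTop (nhds y) := by
      simpa using (hc.smul_const z).const_add y
    filter_upwards [h2.eventually (hR.opn.mem_nhds hy)] with k hk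
    have hk' : y + c k • z ∈ R := hk
    simp [hk']
  rw [measure_empty] at h1
  simpa [rho, Measure.real, Function.comp_def] using
    (ENNReal.tendsto_toReal ENNReal.zero_ne_top).comp h1

end Mom

lemma ex_nonneg (l : ℝ) : 0 ≤ ex R ν l := integral_nonneg fun _ => rho_nonneg _

lemma ex_le (hR : Body R) (hν : Gau L ν) {τ l : ℝ} (hτ : 0 ≤ τ) (hl : 0 ≤ l) (k : ℕ)
    (hk : l ≤ k * τ) : ex R ν l ≤ k * ex R ν τ := by
  have := hν.prob
  have _ := hτ
  unfold ex
  rw [← integral_const_mul]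
  refine integral_mono (Mom.int_l hR l) ((Mom.int_l hR τ).const_mul _) fun w => ?_
  refine (hR.rho_mono w hl hk).trans ?_
  rw [mul_smul]
  exact Mom.rho_nat hR _ k

lemma ex_sq (hR : Body R) (hν : Gau L ν) {l : ℝ} (hl : 0 ≤ l) :
    ∫ w, rho R (l • w) ^ 2 ∂ν ≤ 3 * ex R ν l ^ 2 := by
  have := hν.prob
  have hm := Mom.meas_l hR l
  have h1 := hν.mix2 _ _ hm hm
  have h2 : ∫ w, rho R (l • √2 • w) ∂ν = ex R ν (l * √2) := by
    simp only [ex, mul_smul]
  have s2 : √2 ≤ 2 := by
    rw [Real.sqrt_le_iff]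
    norm_num
  have h3 : ex R ν (l * √2) ≤ (2 : ℕ) * ex R ν l :=
    ex_le hR hν hl (by positivity) 2 (by push_cast; nlinarith)
  have h4 : ∫ p, (rho R (l • p.1) - rho R (l • p.2)) ^ 2 ∂ν.prod ν ≤
      ∫ p, rho R (l • (p.1 + p.2)) * rho R (l • (p.1 - p.2)) ∂ν.prod ν := by
    refine integral_mono_of_nonneg (Filter.Eventually.of_forall fun _ => sq_nonneg _) ?_
      (Filter.Eventually.of_forall fun p => ?_)
    · exact Mom.int_bdd ((hm.comp (measurable_fst.add measurable_snd)).mul
        (hm.comp (measurable_fst.sub measurable_snd)))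
        (fun _ => mul_nonneg (rho_nonneg _) (rho_nonneg _))
        fun _ => mul_le_one₀ (hR.rho_le_one _) (rho_nonneg _) (hR.rho_le_one _)
    · simp only [smul_add, smul_sub]
      exact Mom.diff_sq hR _ _
  have i1 : Integrable (fun p : E d × E d => rho R (l • p.1) ^ 2) (ν.prod ν) :=
    (Mom.int_sq hR l).comp_fst ν
  have i2 : Integrable (fun p : E d × E d => rho R (l • p.2) ^ 2) (ν.prod ν) :=
    (Mom.int_sq hR l).comp_snd ν
  have i3 : Integrable (fun p : E d × E d => rho R (l • p.1) * rho R (l • p.2)) (ν.prod ν) :=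
    (Mom.int_l hR l).mul_prod (Mom.int_l hR l)
  have h5 : ∫ p, (rho R (l • p.1) - rho R (l • p.2)) ^ 2 ∂ν.prod ν =
      2 * ∫ w, rho R (l • w) ^ 2 ∂ν - 2 * ex R ν l ^ 2 := by
    have e : ∀ p : E d × E d, (rho R (l • p.1) - rho R (l • p.2)) ^ 2 =
        rho R (l • p.1) ^ 2 + rho R (l • p.2) ^ 2 - 2 * (rho R (l • p.1) * rho R (l • p.2)) :=
      fun p => by ring
    have i12 : Integrable (fun p : E d × E d => rho R (l • p.1) ^ 2 + rho R (l • p.2) ^ 2)
        (ν.prod ν) := i1.add i2
    simp only [e]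
    rw [integral_sub i12 (i3.const_mul 2), integral_add i1 i2, integral_const_mul,
      integral_prod_mul (fun w => rho R (l • w)) (fun w => rho R (l • w)),
      integral_fun_fst (fun w => rho R (l • w) ^ 2), integral_fun_snd (fun w => rho R (l • w) ^ 2)]
    simp only [probReal_univ, one_smul, ex]
    ring
  rw [h5, h1, h2] at h4
  have h6 := mul_self_le_mul_self (ex_nonneg _) h3
  push_cast at h6
  nlinarith

lemma ex_ge (hR : Body R) (hν : Gau L ν) {τ : ℝ} (hτ : 0 ≤ τ) (k : ℕ) :
    2 ^ k * ex R ν τ - 2 * 4 ^ k * ex R ν τ ^ 2 ≤ ex R ν (2 ^ k * τ) := by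
  have := hν.prob
  induction k with
  | zero =>
    simp only [pow_zero, one_mul, mul_one]
    nlinarith [sq_nonneg (ex R ν τ)]
  | succ k ih =>
    have hl : 0 ≤ 2 ^ k * τ := by positivity
    have h1 : 2 * ex R ν (2 ^ k * τ) - ∫ w, rho R ((2 ^ k * τ) • w) ^ 2 ∂ν ≤
        ex R ν (2 ^ (k + 1) * τ) := by
      unfold ex
      rw [← integral_const_mul, ← integral_sub ((Mom.int_l hR _).const_mul _) (Mom.int_sq hR _)]
      refine integral_mono (((Mom.int_l hR _).const_mul _).sub (Mom.int_sq hR _)) (Mom.int_l hR _)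
        fun w => ?_
      have := hR.rho_two ((2 ^ k * τ) • w)
      rw [smul_smul, show 2 * (2 ^ k * τ) = 2 ^ (k + 1) * τ by ring] at this
      exact this
    have h2 := ex_sq hR hν hl
    have h3 : ex R ν (2 ^ k * τ) ≤ ((2 ^ k : ℕ) : ℝ) * ex R ν τ :=
      ex_le hR hν hτ hl (2 ^ k) (by push_cast; exact le_rfl)
    push_cast at h3
    have h4 := pow_le_pow_left₀ (ex_nonneg _) h3 2
    have h5 : ((2 : ℝ) ^ k * ex R ν τ) ^ 2 = 4 ^ k * ex R ν τ ^ 2 := by
      rw [mul_pow, ← pow_mul, mul_comm k 2, pow_mul]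
      norm_num
    have h6 : 0 ≤ (4 : ℝ) ^ k * ex R ν τ ^ 2 := by positivity
    rw [pow_succ 2 k, pow_succ 4 k] at *
    nlinarith

theorem exists_scale (hR : Body R) (hν : Gau L ν) {v : E d} (hv : ‖L v‖ = 1) {t : ℝ}
    (ht : 0 < t) (ht' : t < p0) : ∃ τ, 0 < τ ∧ t / 2 ≤ ex R ν τ ∧ ex R ν τ ≤ t := by
  classical
  have := hν.prob
  have := hR.prob
  obtain ⟨M, hM0, hM⟩ := hR.bdd.exists_pos_norm_le
  have hb : ∀ x ∈ R, |⟪v, x⟫| ≤ ‖v‖ * M := fun x hx =>
    (abs_real_inner_le_norm v x).trans (mul_le_mul_of_nonneg_left (hM x hx) (norm_nonneg _))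
  set l0 : ℝ := 2 * (‖v‖ * M) + 1 with hl0
  have hl : 0 < l0 := by positivity
  have hms : MeasurableSet {w : E d | 1 ≤ ⟪v, w⟫} :=
    (isClosed_le continuous_const (by fun_prop)).measurableSet
  have h0 : t < ex R ν l0 := by
    refine ht'.trans_le ((hν.up v hv).trans ?_)
    rw [← integral_indicator_one hms]
    refine integral_mono_of_nonneg (Filter.Eventually.of_forall fun w => ?_) (Mom.int_l hR _)
      (Filter.Eventually.of_forall fun w => ?_)
    · exact indicator_nonneg (fun _ _ => zero_le_one) w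
    · by_cases hw : w ∈ {w : E d | 1 ≤ ⟪v, w⟫}
      · rw [indicator_of_mem hw]
        have h1 : mu R {y | y + l0 • w ∉ R} = 1 := by
          rw [← mem_ae_iff_prob_eq_one (Mom.meas_out hR _)]
          filter_upwards [hR.ae_mem] with y hy hy'
          have a1 := abs_le.1 (hb y hy)
          have a2 := abs_le.1 (hb _ hy')
          rw [inner_add_right, real_inner_smul_right] at a2
          have a3 : l0 * 1 ≤ l0 * ⟪v, w⟫ := mul_le_mul_of_nonneg_left hw hl.le
          linarith [a1.1, a2.2]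
        simp [rho, Measure.real, h1]
      · rw [indicator_of_notMem hw]
        exact rho_nonneg _
  have hc : Filter.Tendsto (fun k : ℕ => l0 * (1 / 2) ^ k) Filter.atTop (nhds 0) := by
    simpa using (tendsto_pow_atTop_nhds_zero_of_lt_one (r := (1 / 2 : ℝ)) (by norm_num)
      (by norm_num)).const_mul l0
  have hlim : Filter.Tendsto (fun k : ℕ => ex R ν (l0 * (1 / 2) ^ k)) Filter.atTop (nhds 0) := by
    have := tendsto_integral_of_dominated_convergence (μ := ν)
      (F := fun (k : ℕ) w => rho R ((l0 * (1 / 2) ^ k) • w)) (f := fun _ => (0 : ℝ)) (fun _ => 1)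
      (fun k => (Mom.meas_l hR _).aestronglyMeasurable) (integrable_const _)
      (fun k => Filter.Eventually.of_forall fun w => by
        rw [Real.norm_eq_abs, abs_of_nonneg (rho_nonneg _)]
        exact hR.rho_le_one _)
      (Filter.Eventually.of_forall fun w => Mom.rho_lim hR w hc)
    simpa [ex] using this
  have hex : ∃ k : ℕ, ex R ν (l0 * (1 / 2) ^ k) ≤ t :=
    ((hlim.eventually_lt_const ht).exists).imp fun _ h => h.le
  have hs := Nat.find_spec hex
  obtain ⟨j, hj⟩ : ∃ j, Nat.find hex = j + 1 := by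
    refine Nat.exists_eq_succ_of_ne_zero fun h => ?_
    rw [h, pow_zero, mul_one] at hs
    linarith
  have hm := not_le.1 (Nat.find_min hex (show j < Nat.find hex by omega))
  rw [hj] at hs
  refine ⟨_, by positivity, ?_, hs⟩
  have h3 : ex R ν (l0 * (1 / 2) ^ j) ≤ (2 : ℕ) * ex R ν (l0 * (1 / 2) ^ (j + 1)) :=
    ex_le hR hν (by positivity) (by positivity) 2 (le_of_eq (by push_cast; ring))
  push_cast at h3
  linarith

end Pool.Agent.Lib.MP_bc94b4_co.Ac
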