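import Pool.Agent.Lib.MP_bc94b4_co.Ac.BM

/-!
Exit probabilities of a convex body.
-/

namespace Pool.Agent.Lib.MP_bc94b4_co.Ac

open MeasureTheory ProbabilityTheory Set
open scoped RealInnerProductSpace ENNReal

variable {d : ℕ} {R : Set (E d)} {S : Finset (E d)} {L : E d →L[ℝ] E d} {ν : Measure (E d)}

namespace Rho

lemma ms_in (hR : Body R) (z : E d) : MeasurableSet {y | y + z ∈ R} :=
  measurable_add_const z hR.meas

lemma ms_out (hR : Body R) (z : E d) : MeasurableSet {y | y + z ∉ R} := (ms_in hR z).compl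

lemma shift (hR : Body R) {A B : Set (E d)} (hA : MeasurableSet A) (hB : MeasurableSet B)
    (t : E d) (h : ∀ y ∈ A, y ∈ R → y + t ∈ B ∧ y + t ∈ R) : (mu R).real A ≤ (mu R).real B := by
  rw [mu_real hA, mu_real hB]
  refine div_le_div_of_nonneg_right ?_ measureReal_nonneg
  have hf : volume (B ∩ R) ≠ ∞ := ne_top_of_le_ne_top hR.vol_fin (measure_mono inter_subset_right)
  refine ENNReal.toReal_mono hf ?_
  rw [← measure_preimage_add_right volume t (B ∩ R)]
  exact measure_mono fun y hy => h y hy.1 hy.2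

lemma stay (hR : Body R) (z : E d) : (mu R).real {y | y + z ∈ R} = 1 - rho R z := by
  have := hR.prob
  have h := probReal_compl_eq_one_sub (μ := mu R) (ms_out hR z)
  rw [rho, ← h]
  congr 1
  ext y
  simp

end Rho

lemma rho_nonneg (z : E d) : 0 ≤ rho R z := measureReal_nonneg

lemma Body.rho_le_one (hR : Body R) (z : E d) : rho R z ≤ 1 := by
  have := hR.prob
  exact measureReal_le_one

lemma Body.meas_rho (hR : Body R) : Measurable (rho R) := by
  have := hR.prob
  have h : MeasurableSet {p : E d × E d | p.2 + p.1 ∉ R} :=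
    ((measurable_snd.add measurable_fst) hR.meas).compl
  exact (measurable_measure_prodMk_left (ν := mu R) h).ennreal_toReal

lemma Body.rho_neg (hR : Body R) (z : E d) : rho R (-z) = rho R z := by
  have h : ∀ z : E d, rho R (-z) ≤ rho R z := fun z => by
    have h1 := Rho.shift hR (Rho.ms_in hR z) (Rho.ms_in hR (-z)) z fun y hy hy' =>
      ⟨by simpa using hy', hy⟩
    rw [Rho.stay hR, Rho.stay hR] at h1
    linarith
  have h1 := h (-z)
  rw [neg_neg] at h1
  exact le_antisymm (h z) h1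

lemma Body.rho_add (hR : Body R) (z z' : E d) : rho R (z + z') ≤ rho R z + rho R z' := by
  have := hR.prob
  have h1 : {y | y + (z + z') ∉ R} ⊆
      {y | y + z ∉ R} ∪ ({y | y + z ∈ R} ∩ {y | y + (z + z') ∉ R}) := fun y hy => by
    by_cases h : y + z ∈ R
    · exact Or.inr ⟨h, hy⟩
    · exact Or.inl h
  have h2 := Rho.shift hR ((Rho.ms_in hR z).inter (Rho.ms_out hR (z + z'))) (Rho.ms_out hR z') z
    fun y hy _ => ⟨by simpa [add_assoc] using hy.2, hy.1⟩
  exact ((measureReal_mono h1).trans (measureReal_union_le _ _)).trans (add_le_add le_rfl h2)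

lemma Body.rho_mono (hR : Body R) (z : E d) {a b : ℝ} (ha : 0 ≤ a) (hab : a ≤ b) :
    rho R (a • z) ≤ rho R (b • z) := by
  have h1 := Rho.shift hR (Rho.ms_in hR (b • z)) (Rho.ms_in hR (a • z)) 0 fun y hy hy' => by
    rw [add_zero]
    refine ⟨?_, hy'⟩
    rcases (ha.trans hab).eq_or_lt with hb | hb
    · have h0 : a = b := le_antisymm hab (hb ▸ ha)
      rw [h0]
      exact hy
    · have h2 := hR.cvx.add_smul_mem hy' hy (t := a / b)
        ⟨div_nonneg ha hb.le, (div_le_one hb).2 hab⟩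
      rwa [smul_smul, div_mul_cancel₀ _ hb.ne'] at h2
  rw [Rho.stay hR, Rho.stay hR] at h1
  linarith

lemma Body.rho_two (hR : Body R) (z : E d) :
    2 * rho R z - rho R z ^ 2 ≤ rho R ((2 : ℝ) • z) := by
  have := hR.prob
  have h1 := hR.bm MeasurableSet.univ (Rho.ms_in hR ((2 : ℝ) • z)) (Rho.ms_in hR z)
    fun x _ hx y hy _ => by
      have h2 := hR.cvx hx hy (a := 2⁻¹) (b := 2⁻¹) (by norm_num) (by norm_num) (by norm_num)
      have h3 : (2 : ℝ)⁻¹ • (x + y) + z = (2 : ℝ)⁻¹ • x + (2 : ℝ)⁻¹ • (y + (2 : ℝ) • z) := by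
        module
      change (2 : ℝ)⁻¹ • (x + y) + z ∈ R
      rwa [h3]
  rw [Rho.stay hR, Rho.stay hR, probReal_univ] at h1
  nlinarith

lemma Body.tri_out (hR : Body R) (x z : E d) :
    (mu R).real {y | y + (x + z) ∉ R ∧ y + (x - z) ∉ R} ≤
      rho R (x + z) + rho R (x - z) - rho R ((2 : ℝ) • z) := by
  have := hR.prob
  have h1 := measureReal_union_add_inter (μ := mu R) (s := {y | y + (x + z) ∉ R})
    (Rho.ms_out hR (x - z))
  have h2 := probReal_compl_eq_one_sub (μ := mu R)
    ((Rho.ms_out hR (x + z)).union (Rho.ms_out hR (x - z)))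
  have h3 := Rho.shift hR ((Rho.ms_out hR (x + z)).union (Rho.ms_out hR (x - z))).compl
    (Rho.ms_in hR ((2 : ℝ) • z)) (x - z) fun y hy _ => by
      simp only [mem_compl_iff, mem_union, mem_ofPred_eq, not_or, not_not] at hy
      refine ⟨?_, hy.2⟩
      have h4 : y + (x - z) + (2 : ℝ) • z = y + (x + z) := by module
      change y + (x - z) + (2 : ℝ) • z ∈ R
      rw [h4]
      exact hy.1
  rw [Rho.stay hR, h2] at h3
  change _ + (mu R).real {y | y + (x + z) ∉ R ∧ y + (x - z) ∉ R} =
    rho R (x + z) + rho R (x - z) at h1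
  linarith

lemma Body.both_out (hR : Body R) (z : E d) :
    (mu R).real {y | y + z ∉ R ∧ y - z ∉ R} ≤ rho R z ^ 2 := by
  have h1 := hR.tri_out 0 z
  have h2 := hR.rho_two z
  simp only [zero_add, zero_sub, ← sub_eq_add_neg] at h1
  rw [hR.rho_neg] at h1
  linarith

end Pool.Agent.Lib.MP_bc94b4_co.Ac
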