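import Pool.Agent.Lib.MP_bc94b4_co.Ac.Rho

/-!
The half-size copies.
-/

namespace Pool.Agent.Lib.MP_bc94b4_co.Ac

open MeasureTheory ProbabilityTheory Set
open scoped RealInnerProductSpace ENNReal

variable {d : ℕ} {R : Set (E d)} {S : Finset (E d)} {L : E d →L[ℝ] E d} {ν : Measure (E d)}

lemma Body.meas_tile (hR : Body R) (a : E d) : MeasurableSet (tile R a) :=
  (by fun_prop : Measurable fun x : E d => (2 : ℝ) • x - a) hR.meas

lemma Til.tile_sub (h : Til S R) {a : E d} (ha : a ∈ S) : tile R a ⊆ R := fun x hx => by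
  simpa using h.mid a ha _ hx

lemma Til.tile_disj (h : Til S R) {a b : E d} (ha : a ∈ S) (hb : b ∈ S) (hab : a ≠ b) :
    Disjoint (tile R a) (tile R b) :=
  disjoint_left.2 fun _ hx hy => h.dis a ha b hb hab _ hx _ hy (by simp)

lemma Til.tile_int (hR : Body R) (h : Til S R) {a : E d} (ha : a ∈ S) (f : E d → ℝ) :
    ∫ y, f ((2 : ℝ)⁻¹ • (a + y)) ∂mu R = 2 ^ d * ∫ x in tile R a, f x ∂mu R := by
  have h1 : ∀ y, R.indicator (fun y => f ((2 : ℝ)⁻¹ • (a + y))) y =
      (tile R a).indicator f ((2 : ℝ)⁻¹ • (a + y)) := fun y => by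
    have h2 : (2 : ℝ)⁻¹ • (a + y) ∈ tile R a ↔ y ∈ R := by simp [tile]
    by_cases hy : y ∈ R
    · rw [indicator_of_mem hy, indicator_of_mem (h2.2 hy)]
    · rw [indicator_of_notMem hy, indicator_of_notMem (mt h2.1 hy)]
  rw [mu, Measure.restrict_smul, integral_smul_measure, integral_smul_measure,
    Measure.restrict_restrict_of_subset (h.tile_sub ha), ← integral_indicator hR.meas,
    ← integral_indicator (hR.meas_tile a)]
  simp only [h1]
  rw [integral_add_left_eq_self (fun y => (tile R a).indicator f ((2 : ℝ)⁻¹ • y)) a,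
    Measure.integral_comp_smul]
  simp [mul_left_comm]

lemma Til.sum_int (hR : Body R) (h : Til S R) {T : Finset (E d)} (hT : T ⊆ S) {f : E d → ℝ}
    (hf : Integrable f (mu R)) :
    ∑ a ∈ T, ∫ y, f ((2 : ℝ)⁻¹ • (a + y)) ∂mu R =
      2 ^ d * ∫ x in ⋃ a ∈ T, tile R a, f x ∂mu R := by
  rw [integral_biUnion_finset T (fun a _ => hR.meas_tile a)
    (fun a ha b hb hab => h.tile_disj (hT ha) (hT hb) hab) fun _ _ => hf.integrableOn,
    Finset.mul_sum]
  exact Finset.sum_congr rfl fun a ha => h.tile_int hR (hT ha) f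

lemma Til.union_real (hR : Body R) (h : Til S R) {T : Finset (E d)} (hT : T ⊆ S) :
    2 ^ d * (mu R).real (⋃ a ∈ T, tile R a) = T.card := by
  have := hR.prob
  simpa using (h.sum_int hR hT (integrable_const (1 : ℝ))).symm

lemma Til.card_le (hR : Body R) (h : Til S R) : (S.card : ℝ) ≤ 2 ^ d := by
  have := hR.prob
  rw [← h.union_real hR subset_rfl]
  exact mul_le_of_le_one_right (by positivity) measureReal_le_one

theorem Til.transfer (hR : Body R) (h : Til S R) (w : E d) :
    S.card * rho R ((2 : ℝ) • w) - 2 ^ d * rho R w - (2 ^ d - S.card) ≤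
      ∑ a ∈ S, (mu R).real {y | ∃ b ∈ S, b ≠ a ∧ y + (2 : ℝ) • w - (b - a) ∈ R} := by
  have := hR.prob
  set U := ⋃ a ∈ S, tile R a with hU
  have hUm : MeasurableSet U := Finset.measurableSet_biUnion _ fun a _ => hR.meas_tile a
  have hB : MeasurableSet {x | x + w ∉ U} := measurable_add_const w hUm.compl
  have hi : Integrable ({x | x + w ∉ U}.indicator fun _ => (1 : ℝ)) (mu R) :=
    (integrable_const 1).indicator hB
  have h1 : ∀ a ∈ S, rho R ((2 : ℝ) • w) ≤
      (mu R).real {y | ∃ b ∈ S, b ≠ a ∧ y + (2 : ℝ) • w - (b - a) ∈ R} +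
        ∫ y, {x | x + w ∉ U}.indicator (fun _ => (1 : ℝ)) ((2 : ℝ)⁻¹ • (a + y)) ∂mu R := by
    intro a _
    have h2 : Measurable fun y : E d => (2 : ℝ)⁻¹ • (a + y) := by fun_prop
    have h3 := integral_indicator_one (μ := mu R) (h2 hB)
    refine le_of_le_of_eq ((measureReal_mono fun y hy => ?_).trans (measureReal_union_le _ _))
      (congrArg _ h3.symm)
    by_cases h4 : (2 : ℝ)⁻¹ • (a + y) + w ∈ U
    · obtain ⟨b, hb, h5⟩ := mem_iUnion₂.1 h4
      have h6 : (2 : ℝ) • ((2 : ℝ)⁻¹ • (a + y) + w) - b = y + (2 : ℝ) • w - (b - a) := by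
        rw [smul_add, smul_inv_smul₀ two_ne_zero]
        abel
      have h7 : y + (2 : ℝ) • w - (b - a) ∈ R := h6 ▸ h5
      exact Or.inl ⟨b, hb, fun h8 => hy (by simpa [h8] using h7), h7⟩
    · exact Or.inr h4
  have h2 := Finset.sum_le_sum h1
  rw [Finset.sum_const, nsmul_eq_mul, Finset.sum_add_distrib, h.sum_int hR subset_rfl hi] at h2
  have h3 := setIntegral_le_integral (s := U) hi
    (ae_of_all _ fun x => indicator_nonneg (fun _ _ => zero_le_one) x)
  have h4 : ∫ x, {x | x + w ∉ U}.indicator (fun _ => (1 : ℝ)) x ∂mu R =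
      (mu R).real {x | x + w ∉ U} := integral_indicator_one hB
  have h5 : (mu R).real {x | x + w ∉ U} ≤ rho R w + (mu R).real ((· + w) ⁻¹' (Uᶜ ∩ R)) := by
    refine (measureReal_mono fun x hx => ?_).trans (measureReal_union_le _ _)
    by_cases h6 : x + w ∈ R
    exacts [Or.inr ⟨hx, h6⟩, Or.inl h6]
  have h6 : (mu R).real ((· + w) ⁻¹' (Uᶜ ∩ R)) ≤ (mu R).real Uᶜ := by
    rw [mu_real (measurable_add_const w (hUm.compl.inter hR.meas)), mu_real hUm.compl]
    refine div_le_div_of_nonneg_right ?_ measureReal_nonneg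
    have h7 : volume ((· + w) ⁻¹' (Uᶜ ∩ R)) = volume (Uᶜ ∩ R) := measure_preimage_add_right _ _ _
    refine (measureReal_mono inter_subset_left ?_).trans (le_of_eq (congrArg ENNReal.toReal h7))
    rw [h7]
    exact ne_top_of_le_ne_top hR.vol_fin (measure_mono inter_subset_right)
  rw [probReal_compl_eq_one_sub hUm] at h6
  have h7 := h.union_real hR subset_rfl
  have h8 : (0 : ℝ) ≤ 2 ^ d := by positivity
  have h9 := mul_le_mul_of_nonneg_left (h3.trans (h4.le.trans (h5.trans (add_le_add_right h6 _)))) h8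
  rw [← hU] at h2 h7
  linarith

end Pool.Agent.Lib.MP_bc94b4_co.Ac
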